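import Pool.Agent.H112R2.FinalGap

/-!
# Covering a set by translates of a progression through a set of small doubling

If `A ⊆ S + X` and `X` has small doubling then the structure theorem of `H112R2` for `X` gives a
covering of `A` by progressions of volume at most `|A|`.
-/

set_option autoImplicit false

namespace Pool.Agent.U546.PV

open Finset H112
open scoped Pointwise

section fg

variable {G : Type*} [AddCommGroup G] [AddGroup.FG G] [DecidableEq G]

/-- the structure of `X` and the induced covering of `A` -/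
theorem pre {K : ℝ} {A X S' : Finset G} (hX : X.Nonempty)
    (hK : ((X + X).card : ℝ) ≤ K * X.card) (hK1 : 1 ≤ K) {κ : ℝ} (hκ : κ = Real.log (2 * K)) {W : ℝ}
    (hcov : ∀ a ∈ A, ∃ s ∈ S', a - s ∈ X) (hW : (X.card : ℝ) ≤ W * A.card) (hW1 : 1 ≤ W) :
    ∃ (S : Set (G →+ UnitAddCircle)) (X' : Finset G) (V ρ : ℝ) (m : ℕ)
      (N : Seminorm ℝ (Fin m → ℝ)) (ψ : (Fin m → ℤ) →+ G),
      (bohr S (1 / 6)).Finite ∧ 1 ≤ V ∧ ((bohr S (1 / 6)).ncard : ℝ) ≤ V * A.card ∧
      0 < ρ ∧ ρ ≤ 1 / 12 ∧ (∀ a ∈ A, ∃ x ∈ X', a - x ∈ bohr S ρ) ∧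
      (∀ x, N x = 0 → x = 0) ∧
      (∀ c : Fin m → ℤ, N (fun i => (c i : ℝ)) < 1 / 2 → ∀ r : ℝ, 0 ≤ r →
        (ψ c ∈ bohr S r ↔ c ∈ LL N r)) ∧
      (∀ x ∈ bohr S ρ, ∃ c ∈ LL N ρ, x - ψ c ∈ ann S) ∧
      (m : ℝ) ≤ 300 * κ ∧
      (X'.card : ℝ) * V ≤ S'.card * W * Real.exp (8000 * κ * (1 + Real.log (1 + κ))) := by
  classical
  obtain ⟨S, X₀, V, ρ, m, N, ψ, hfin, hV1, hsize, hρ0, hρ12, hX₀, hN, h1, h2, hm, hXV⟩ :=
    structure_thm hX hK hK1 hκ
  refine ⟨S, S' + X₀, V * W, ρ, m, N, ψ, hfin, by nlinarith, ?_, hρ0, hρ12, ?_, hN, h1, h2, hm, ?_⟩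
  · refine hsize.trans ?_
    have : V * (X.card : ℝ) ≤ V * (W * A.card) := mul_le_mul_of_nonneg_left hW (by linarith)
    linarith
  · intro a ha
    obtain ⟨s, hs, hx⟩ := hcov a ha
    obtain ⟨x, hx₀, hb⟩ := hX₀ _ hx
    refine ⟨s + x, add_mem_add hs hx₀, ?_⟩
    rwa [← sub_sub]
  · have h3 : ((S' + X₀).card : ℝ) ≤ S'.card * X₀.card := by exact_mod_cast card_add_le
    have hV0 : 0 ≤ V := by linarith
    calc ((S' + X₀).card : ℝ) * (V * W) ≤ (S'.card * X₀.card) * (V * W) := by gcongr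
      _ = S'.card * W * (X₀.card * V) := by ring
      _ ≤ _ := by gcongr

/-- covering by translates of a convex coset progression -/
theorem cover_fg {K : ℝ} {A X S' : Finset G} (hA : A.Nonempty) (hX : X.Nonempty)
    (hK : ((X + X).card : ℝ) ≤ K * X.card) (hK1 : 1 ≤ K) {κ : ℝ} (hκ : κ = Real.log (2 * K)) {W : ℝ}
    (hcov : ∀ a ∈ A, ∃ s ∈ S', a - s ∈ X) (hW : (X.card : ℝ) ≤ W * A.card) (hW1 : 1 ≤ W) :
    ∃ (d : ℕ) (B : Set (Fin d → ℝ)) (ψ : (Fin d → ℤ) →+ G) (H₀ : AddSubgroup G) (T : Finset G),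
      (d : ℝ) ≤ max (300 * κ) 1 ∧ SymmBody B ∧ Finite H₀ ∧
      {c : Fin d → ℤ | (fun i => (c i : ℝ)) ∈ B}.ncard * Nat.card H₀ ≤ A.card ∧
      (T.card : ℝ) ≤ S'.card * W * Real.exp (13000 * κ * (1 + Real.log (1 + κ))) ∧
      Covers B ψ H₀ T A := by
  have hκlog2 : Real.log 2 ≤ κ := by
    rw [hκ]; exact Real.log_le_log (by norm_num) (by linarith)
  have hκ69 : (0.69 : ℝ) < κ := lt_of_lt_of_le log_two_gt hκlog2
  obtain ⟨S, X', V, ρ, m, N, ψ, hfin, hV1, hsize, hρ0, hρ12, hX', hN, h1, h2, hm, hXV⟩ :=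
    pre hX hK hK1 hκ hcov hW hW1
  obtain ⟨d, B, ψ', H₀, T, hd, hB, hH₀, hvol, hT, hcov⟩ :=
    cover_final S hfin hA hV1 hsize hρ0 hρ12 hX' N ψ hN h1 h2
  have hlogκ : 0 ≤ Real.log (1 + κ) := Real.log_nonneg (by linarith)
  refine ⟨d, B, ψ', H₀, T, ?_, hB, hH₀, hvol, ?_, hcov⟩
  · have : (d : ℝ) ≤ max (m : ℝ) 1 := by exact_mod_cast hd
    exact this.trans (max_le_max hm le_rfl)
  · have h3 : ((4 * (m : ℝ) + 1)) ^ (2 * m) ≤
        Real.exp ((600 * κ) * (8 * (1 + Real.log (1 + κ)))) :=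
      pow_le_exp (by positivity) (log_4m_le hκ69 hm) (by push_cast; linarith) (by positivity)
    have hV0 : 0 ≤ V := by linarith
    have hW0 : 0 ≤ W := by linarith
    calc (T.card : ℝ) ≤ X'.card * (6 * V * (4 * m + 1) ^ (2 * m)) := hT
      _ = (X'.card * V) * (6 * (4 * m + 1) ^ (2 * m)) := by ring
      _ ≤ (S'.card * W * Real.exp (8000 * κ * (1 + Real.log (1 + κ)))) *
            (Real.exp (3 * κ) * Real.exp ((600 * κ) * (8 * (1 + Real.log (1 + κ))))) := by
          apply mul_le_mul hXV _ (by positivity) (by positivity)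
          exact mul_le_mul (six_le_exp hκ69) h3 (by positivity) (by positivity)
      _ = S'.card * W * Real.exp (8000 * κ * (1 + Real.log (1 + κ)) +
            (3 * κ + (600 * κ) * (8 * (1 + Real.log (1 + κ))))) := by
          rw [Real.exp_add, Real.exp_add]; ring
      _ ≤ S'.card * W * Real.exp (13000 * κ * (1 + Real.log (1 + κ))) := by
          have h10 : 0 ≤ κ * Real.log (1 + κ) := mul_nonneg (by linarith) hlogκ
          have h11 : 8000 * κ * (1 + Real.log (1 + κ)) +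
            (3 * κ + (600 * κ) * (8 * (1 + Real.log (1 + κ)))) ≤ 13000 * κ * (1 + Real.log (1 + κ)) := by
            nlinarith
          gcongr

/-- covering by translates of a proper progression, torsion-free groups -/
theorem gap_fg (htf : ∀ (n : ℕ) (x : G), n ≠ 0 → n • x = 0 → x = 0)
    {K : ℝ} {A X S' : Finset G} (hA : A.Nonempty) (hX : X.Nonempty)
    (hK : ((X + X).card : ℝ) ≤ K * X.card) (hK1 : 1 ≤ K) {κ : ℝ} (hκ : κ = Real.log (2 * K)) {W : ℝ}
    (hcov : ∀ a ∈ A, ∃ s ∈ S', a - s ∈ X) (hW : (X.card : ℝ) ≤ W * A.card) (hW1 : 1 ≤ W) :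
    ∃ (k : ℕ) (v : Fin k → G) (L : Fin k → ℕ) (T : Finset G),
      (k : ℝ) ≤ 300 * κ ∧
      (∀ a b : Fin k → ℤ, (∀ i, |a i| ≤ L i) → (∀ i, |b i| ≤ L i) →
        ∑ i, a i • v i = ∑ i, b i • v i → a = b) ∧
      ∏ i, (2 * L i + 1) ≤ A.card ∧
      (T.card : ℝ) ≤ S'.card * W * Real.exp (17000 * κ * (1 + Real.log (1 + κ))) ∧
      ∀ a ∈ A, ∃ t ∈ T, ∃ c : Fin k → ℤ, (∀ i, |c i| ≤ L i) ∧ a = t + ∑ i, c i • v i := by
  have hκlog2 : Real.log 2 ≤ κ := by
    rw [hκ]; exact Real.log_le_log (by norm_num) (by linarith)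
  have hκ69 : (0.69 : ℝ) < κ := lt_of_lt_of_le log_two_gt hκlog2
  obtain ⟨S, X', V, ρ, m, N, ψ, hfin, hV1, hsize, hρ0, hρ12, hX', hN, h1, h2, hm, hXV⟩ :=
    pre hX hK hK1 hκ hcov hW hW1
  obtain ⟨k, v, L, T, hk, hprop, hvol, hT, hcov⟩ :=
    gap_final S hfin hA hV1 hsize hρ0 hρ12 hX' N ψ hN h1 h2 (ann_eq_bot hfin htf)
  have hlogκ : 0 ≤ Real.log (1 + κ) := Real.log_nonneg (by linarith)
  refine ⟨k, v, L, T, ?_, hprop, hvol, ?_, hcov⟩
  · have : (k : ℝ) ≤ m := by exact_mod_cast hk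
    exact this.trans hm
  · have h3 : ((4 * (m : ℝ) + 1)) ^ m ≤
        Real.exp ((300 * κ) * (8 * (1 + Real.log (1 + κ)))) :=
      pow_le_exp (by positivity) (log_4m_le hκ69 hm) hm (by positivity)
    have h4 : (12 * (m : ℝ) ^ 3) ^ m ≤
        Real.exp ((300 * κ) * (20 * (1 + Real.log (1 + κ)))) := by
      rcases Nat.eq_zero_or_pos m with h0 | hpos
      · subst h0
        rw [pow_zero]
        exact Real.one_le_exp (by positivity)
      · have hm1 : (0 : ℝ) < m := by exact_mod_cast hpos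
        exact pow_le_exp (by positivity) (log_12m_le hκ69 hm hpos) hm (by positivity)
    have hV0 : 0 ≤ V := by linarith
    have hW0 : 0 ≤ W := by linarith
    calc (T.card : ℝ) ≤ X'.card * (V * (4 * m + 1) ^ m * (12 * m ^ 3) ^ m) := hT
      _ = (X'.card * V) * ((4 * m + 1) ^ m * (12 * m ^ 3) ^ m) := by ring
      _ ≤ (S'.card * W * Real.exp (8000 * κ * (1 + Real.log (1 + κ)))) *
            (Real.exp ((300 * κ) * (8 * (1 + Real.log (1 + κ)))) *
              Real.exp ((300 * κ) * (20 * (1 + Real.log (1 + κ))))) := by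
          apply mul_le_mul hXV _ (by positivity) (by positivity)
          exact mul_le_mul h3 h4 (by positivity) (by positivity)
      _ = S'.card * W * Real.exp (8000 * κ * (1 + Real.log (1 + κ)) +
            ((300 * κ) * (8 * (1 + Real.log (1 + κ))) +
              (300 * κ) * (20 * (1 + Real.log (1 + κ))))) := by
          rw [Real.exp_add, Real.exp_add]; ring
      _ ≤ S'.card * W * Real.exp (17000 * κ * (1 + Real.log (1 + κ))) := by
          have h10 : 0 ≤ κ * Real.log (1 + κ) := mul_nonneg (by linarith) hlogκ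
          have h11 : 8000 * κ * (1 + Real.log (1 + κ)) +
            ((300 * κ) * (8 * (1 + Real.log (1 + κ))) +
              (300 * κ) * (20 * (1 + Real.log (1 + κ)))) ≤ 17000 * κ * (1 + Real.log (1 + κ)) := by
            nlinarith
          gcongr

end fg

section general

variable {G : Type*} [AddCommGroup G] [DecidableEq G]

/-- pulling the three sets back to a finitely generated subgroup -/
theorem models (A X S' : Finset G) : ∃ (Γ : AddSubgroup G) (A' X' S'' : Finset Γ), AddGroup.FG Γ ∧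
    A'.image Γ.subtype = A ∧ X'.image Γ.subtype = X ∧ S''.image Γ.subtype = S' := by
  classical
  obtain ⟨Γ, hΓ⟩ : ∃ Γ : AddSubgroup G, Γ = AddSubgroup.closure ((A ∪ X ∪ S' : Finset G) : Set G) :=
    ⟨_, rfl⟩
  have hsub : ∀ a ∈ A ∪ X ∪ S', a ∈ Γ := fun a ha => by
    rw [hΓ]; exact AddSubgroup.subset_closure ha
  obtain ⟨A', hA'⟩ := exists_model A Γ (fun a ha => hsub a (by
    rw [mem_union, mem_union]; exact Or.inl (Or.inl ha)))
  obtain ⟨X', hX'⟩ := exists_model X Γ (fun a ha => hsub a (by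
    rw [mem_union, mem_union]; exact Or.inl (Or.inr ha)))
  obtain ⟨S'', hS''⟩ := exists_model S' Γ (fun a ha => hsub a (by
    rw [mem_union]; exact Or.inr ha))
  refine ⟨Γ, A', X', S'', ?_, hA', hX', hS''⟩
  rw [AddGroup.fg_iff_addSubgroup_fg]
  exact ⟨A ∪ X ∪ S', hΓ.symm⟩

/-- covering by translates of a convex coset progression -/
theorem cover_gen {K : ℝ} {A X S' : Finset G} (hA : A.Nonempty) (hX : X.Nonempty)
    (hK : ((X + X).card : ℝ) ≤ K * X.card) (hK1 : 1 ≤ K) {κ : ℝ} (hκ : κ = Real.log (2 * K)) {W : ℝ}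
    (hcov : ∀ a ∈ A, ∃ s ∈ S', a - s ∈ X) (hW : (X.card : ℝ) ≤ W * A.card) (hW1 : 1 ≤ W) :
    ∃ (d : ℕ) (B : Set (Fin d → ℝ)) (ψ : (Fin d → ℤ) →+ G) (H₀ : AddSubgroup G) (T : Finset G),
      (d : ℝ) ≤ max (300 * κ) 1 ∧ SymmBody B ∧ Finite H₀ ∧
      {c : Fin d → ℤ | (fun i => (c i : ℝ)) ∈ B}.ncard * Nat.card H₀ ≤ A.card ∧
      (T.card : ℝ) ≤ S'.card * W * Real.exp (13000 * κ * (1 + Real.log (1 + κ))) ∧
      Covers B ψ H₀ T A := by
  classical
  obtain ⟨Γ, A', X', S'', hfg, rfl, rfl, rfl⟩ := models A X S'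
  have hinj : Function.Injective Γ.subtype := Γ.subtype_injective
  have hcA : (A'.image Γ.subtype).card = A'.card := card_image_of_injective _ hinj
  have hcX : (X'.image Γ.subtype).card = X'.card := card_image_of_injective _ hinj
  have hcS : (S''.image Γ.subtype).card = S''.card := card_image_of_injective _ hinj
  have hcXX : (X'.image Γ.subtype + X'.image Γ.subtype).card = (X' + X').card := by
    rw [← image_add, card_image_of_injective _ hinj]
  rw [hcXX, hcX] at hK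
  rw [hcX, hcA] at hW
  obtain ⟨d, B, ψ, H₀, T, hd, hB, hH₀, hvol, hT, hc⟩ := cover_fg (G := Γ) (A := A') (X := X') (S' := S'')
    (image_nonempty.1 hA) (image_nonempty.1 hX) hK hK1 hκ (by
      intro a ha
      obtain ⟨s, hs, hx⟩ := hcov _ (mem_image_of_mem _ ha)
      obtain ⟨s', hs', rfl⟩ := mem_image.1 hs
      refine ⟨s', hs', ?_⟩
      rw [← map_sub] at hx
      obtain ⟨x', hx', he⟩ := mem_image.1 hx
      rwa [← hinj he]) hW hW1
  refine ⟨d, B, Γ.subtype.comp ψ, H₀.map Γ.subtype, T.image Γ.subtype, hd, hB, ?_, ?_, ?_, ?_⟩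
  · have : (H₀.map Γ.subtype : Set G).Finite := by
      rw [AddSubgroup.coe_map]
      exact (Set.toFinite (H₀ : Set Γ)).image _
    exact this.to_subtype
  · have h1 : Nat.card (H₀.map Γ.subtype) = Nat.card H₀ :=
      Nat.card_congr (H₀.equivMapOfInjective Γ.subtype hinj).toEquiv.symm
    rw [h1, hcA]
    exact hvol
  · rw [hcS]
    refine le_trans ?_ hT
    exact_mod_cast card_image_le
  · intro a ha
    obtain ⟨a', ha', rfl⟩ := mem_image.1 ha
    obtain ⟨t, ht, c, hc', h, hh, e⟩ := hc a' ha'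
    refine ⟨Γ.subtype t, mem_image_of_mem _ ht, c, hc', Γ.subtype h, ⟨h, hh, rfl⟩, ?_⟩
    rw [e, map_add, map_add]
    rfl

/-- covering by translates of a proper progression, torsion-free groups -/
theorem gap_gen (htf : ∀ (n : ℕ) (x : G), n ≠ 0 → n • x = 0 → x = 0)
    {K : ℝ} {A X S' : Finset G} (hA : A.Nonempty) (hX : X.Nonempty)
    (hK : ((X + X).card : ℝ) ≤ K * X.card) (hK1 : 1 ≤ K) {κ : ℝ} (hκ : κ = Real.log (2 * K)) {W : ℝ}
    (hcov : ∀ a ∈ A, ∃ s ∈ S', a - s ∈ X) (hW : (X.card : ℝ) ≤ W * A.card) (hW1 : 1 ≤ W) :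
    ∃ (k : ℕ) (v : Fin k → G) (L : Fin k → ℕ) (T : Finset G),
      (k : ℝ) ≤ 300 * κ ∧
      (∀ a b : Fin k → ℤ, (∀ i, |a i| ≤ L i) → (∀ i, |b i| ≤ L i) →
        ∑ i, a i • v i = ∑ i, b i • v i → a = b) ∧
      ∏ i, (2 * L i + 1) ≤ A.card ∧
      (T.card : ℝ) ≤ S'.card * W * Real.exp (17000 * κ * (1 + Real.log (1 + κ))) ∧
      ∀ a ∈ A, ∃ t ∈ T, ∃ c : Fin k → ℤ, (∀ i, |c i| ≤ L i) ∧ a = t + ∑ i, c i • v i := by
  classical
  obtain ⟨Γ, A', X', S'', hfg, rfl, rfl, rfl⟩ := models A X S'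
  have hinj : Function.Injective Γ.subtype := Γ.subtype_injective
  have hcA : (A'.image Γ.subtype).card = A'.card := card_image_of_injective _ hinj
  have hcX : (X'.image Γ.subtype).card = X'.card := card_image_of_injective _ hinj
  have hcS : (S''.image Γ.subtype).card = S''.card := card_image_of_injective _ hinj
  have hcXX : (X'.image Γ.subtype + X'.image Γ.subtype).card = (X' + X').card := by
    rw [← image_add, card_image_of_injective _ hinj]
  rw [hcXX, hcX] at hK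
  rw [hcX, hcA] at hW
  have htf' : ∀ (n : ℕ) (x : Γ), n ≠ 0 → n • x = 0 → x = 0 := by
    intro n x hn hx
    apply hinj
    rw [map_zero]
    apply htf n _ hn
    rw [← map_nsmul, hx, map_zero]
  obtain ⟨k, v, L, T, hk, hprop, hvol, hT, hc⟩ := gap_fg (G := Γ) htf' (A := A') (X := X') (S' := S'')
    (image_nonempty.1 hA) (image_nonempty.1 hX) hK hK1 hκ (by
      intro a ha
      obtain ⟨s, hs, hx⟩ := hcov _ (mem_image_of_mem _ ha)
      obtain ⟨s', hs', rfl⟩ := mem_image.1 hs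
      refine ⟨s', hs', ?_⟩
      rw [← map_sub] at hx
      obtain ⟨x', hx', he⟩ := mem_image.1 hx
      rwa [← hinj he]) hW hW1
  have hsum : ∀ c : Fin k → ℤ, ∑ i, c i • Γ.subtype (v i) = Γ.subtype (∑ i, c i • v i) := by
    intro c
    rw [map_sum]
    simp only [map_zsmul]
  refine ⟨k, fun i => Γ.subtype (v i), L, T.image Γ.subtype, hk, ?_, ?_, ?_, ?_⟩
  · intro a b ha hb hab
    rw [hsum, hsum] at hab
    exact hprop a b ha hb (hinj hab)
  · rw [hcA]; exact hvol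
  · rw [hcS]
    refine le_trans ?_ hT
    exact_mod_cast card_image_le
  · intro a ha
    obtain ⟨a', ha', rfl⟩ := mem_image.1 ha
    obtain ⟨t, ht, c, hc', e⟩ := hc a' ha'
    refine ⟨Γ.subtype t, mem_image_of_mem _ ht, c, hc', ?_⟩
    rw [hsum, e, map_add]

end general

end Pool.Agent.U546.PV
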