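import Pool.Agent.Helper392.Mey.PL

/-!
# A discrete Brunn–Minkowski inequality with a cube
-/

set_option autoImplicit false

namespace Pool.Agent.U546.PV

open MeasureTheory

theorem vol_fl {r : ℕ} (S : Finset (Fin r → ℤ)) :
    volume {x : Fin r → ℝ | (fun i => ⌊x i⌋) ∈ S} = S.card := by
  classical
  have h1 : {x : Fin r → ℝ | (fun i => ⌊x i⌋) ∈ S} =
      ⋃ s ∈ S, Set.pi Set.univ fun i => Set.Ico (s i : ℝ) (s i + 1) := by
    ext x
    simp only [Set.mem_ofPred_eq, Set.mem_iUnion, Set.mem_pi, Set.mem_univ, Set.mem_Ico,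
      forall_const, exists_prop]
    constructor
    · intro h
      exact ⟨_, h, fun i => ⟨Int.floor_le _, Int.lt_floor_add_one _⟩⟩
    · rintro ⟨s, hs, h⟩
      have : (fun i => ⌊x i⌋) = s := by
        funext i
        rw [Int.floor_eq_iff]
        exact h i
      rw [this]
      exact hs
  rw [h1, measure_biUnion_finset]
  · rw [Finset.sum_congr rfl (g := fun _ => (1 : ENNReal))]
    · simp
    · intro s _
      rw [Real.volume_pi_Ico]
      simp
  · intro s _ t _ hst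
    rw [Function.onFun, Set.disjoint_left]
    intro x hx hx'
    apply hst
    funext i
    rw [Set.mem_pi] at hx hx'
    have h2 := hx i (Set.mem_univ i)
    have h3 := hx' i (Set.mem_univ i)
    have h4 : ⌊x i⌋ = s i := Int.floor_eq_iff.2 h2
    have h5 : ⌊x i⌋ = t i := Int.floor_eq_iff.2 h3
    rw [← h4, ← h5]
  · intro s _
    exact MeasurableSet.pi Set.countable_univ fun i _ => measurableSet_Ico

theorem meas_fl {r : ℕ} (S : Finset (Fin r → ℤ)) :
    MeasurableSet {x : Fin r → ℝ | (fun i => ⌊x i⌋) ∈ S} := by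
  have h : Measurable fun x : Fin r → ℝ => (fun i => ⌊x i⌋ : Fin r → ℤ) := by
    rw [measurable_pi_iff]
    intro i
    exact (measurable_pi_apply i).floor
  exact h (Finset.measurableSet S)

/-- **the inequality in `ℤ^r`** -/
theorem bmZ {r : ℕ} (X Y S : Finset (Fin r → ℤ))
    (h : ∀ x ∈ X, ∀ y ∈ Y, ∀ δ : Fin r → ℤ, (∀ i, δ i = 0 ∨ δ i = 1) → x + y + δ ∈ S) :
    4 ^ r * (X.card * Y.card) ≤ S.card ^ 2 := by
  have hC : volume {z : Fin r → ℝ | (fun i => ⌊2 * z i⌋) ∈ S} = (2 ^ r)⁻¹ * S.card := by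
    have h1 : {z : Fin r → ℝ | (fun i => ⌊2 * z i⌋) ∈ S} =
        (fun z => (2 : ℝ) • z) ⁻¹' {x : Fin r → ℝ | (fun i => ⌊x i⌋) ∈ S} := by
      ext z
      simp
    rw [h1, Measure.addHaar_preimage_smul volume (two_ne_zero), vol_fl]
    congr 1
    rw [Module.finrank_fin_fun, abs_of_pos (by positivity), ENNReal.ofReal_inv_of_pos (by positivity),
      ENNReal.ofReal_pow (by norm_num)]
    simp
  have hCm : MeasurableSet {z : Fin r → ℝ | (fun i => ⌊2 * z i⌋) ∈ S} := by
    have h1 : {z : Fin r → ℝ | (fun i => ⌊2 * z i⌋) ∈ S} =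
        (fun z => (2 : ℝ) • z) ⁻¹' {x : Fin r → ℝ | (fun i => ⌊x i⌋) ∈ S} := by
      ext z
      simp
    rw [h1]
    exact (measurable_const_smul (2 : ℝ)) (meas_fl S)
  have h1 := Pool.Agent.Helper392.Mey.PL.bm_pi (meas_fl X) (meas_fl Y) hCm (by
    intro a ha b hb
    simp only [Set.mem_ofPred_eq] at ha hb ⊢
    have h2 : (fun i => ⌊2 * ((a i + b i) / 2)⌋) =
        (fun i => ⌊a i⌋) + (fun i => ⌊b i⌋) + (fun i => ⌊a i + b i⌋ - ⌊a i⌋ - ⌊b i⌋) := by
      funext i
      have : 2 * ((a i + b i) / 2) = a i + b i := by ring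
      simp only [Pi.add_apply, this]
      ring
    rw [h2]
    apply h _ ha _ hb
    intro i
    have h3 := Int.le_floor_add (a i) (b i)
    have h4 := Int.le_floor_add_floor (a i) (b i)
    omega)
  rw [vol_fl, vol_fl, hC] at h1
  have h2 : ((4 ^ r * (X.card * Y.card) : ℕ) : ENNReal) ≤ ((S.card ^ 2 : ℕ) : ENNReal) := by
    push_cast
    have h3 : (4 : ENNReal) ^ r = 2 ^ r * 2 ^ r := by
      rw [← mul_pow]; norm_num
    have h4 : (2 : ENNReal) ^ r ≠ 0 := by positivity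
    have h5 : (2 : ENNReal) ^ r ≠ ⊤ := by
      exact ENNReal.pow_ne_top (by norm_num)
    calc (4 : ENNReal) ^ r * (X.card * Y.card) ≤ 4 ^ r * ((2 ^ r)⁻¹ * S.card) ^ 2 := by gcongr
      _ = ((2 ^ r) * (2 ^ r)⁻¹) * ((2 ^ r) * (2 ^ r)⁻¹) * (S.card : ENNReal) ^ 2 := by
          rw [h3]; ring
      _ = (S.card : ENNReal) ^ 2 := by
          rw [ENNReal.mul_inv_cancel h4 h5]; ring
  exact_mod_cast h2

variable {G : Type*} [AddCommGroup G] [DecidableEq G]

omit [DecidableEq G] in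
/-- the inequality for subsets of cosets of a free subgroup -/
theorem bmG {r : ℕ} (v : Fin r → G) (hind : ∀ c : Fin r → ℤ, ∑ i, c i • v i = 0 → c = 0)
    (U W S : Finset G) (hU : ∀ u ∈ U, ∀ u' ∈ U, ∃ c : Fin r → ℤ, u - u' = ∑ i, c i • v i)
    (hW : ∀ u ∈ W, ∀ u' ∈ W, ∃ c : Fin r → ℤ, u - u' = ∑ i, c i • v i)
    (hS : ∀ u ∈ U, ∀ w ∈ W, ∀ δ : Fin r → ℤ, (∀ i, δ i = 0 ∨ δ i = 1) →
      u + w + ∑ i, δ i • v i ∈ S) : 4 ^ r * (U.card * W.card) ≤ S.card ^ 2 := by
  classical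
  rcases U.eq_empty_or_nonempty with rfl | ⟨u₀, hu₀⟩
  · simp
  rcases W.eq_empty_or_nonempty with rfl | ⟨w₀, hw₀⟩
  · simp
  obtain ⟨φ, hφ⟩ : ∃ φ : (Fin r → ℤ) → G, φ = fun c => ∑ i, c i • v i := ⟨_, rfl⟩
  have hadd : ∀ c d, φ (c + d) = φ c + φ d := by
    intro c d
    rw [hφ]
    simp only [Pi.add_apply, add_smul, Finset.sum_add_distrib]
  have hinj : Function.Injective φ := by
    intro c d h
    have h1 : φ (c - d) = 0 := by
      have h2 : φ c = φ (c - d) + φ d := by rw [← hadd, sub_add_cancel]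
      rw [h] at h2
      have h3 : φ (c - d) + φ d = 0 + φ d := by rw [← h2, zero_add]
      exact add_right_cancel h3
    have h2 := hind (c - d) (by rw [hφ] at h1; exact h1)
    exact sub_eq_zero.1 h2
  choose! f hf using fun u (hu : u ∈ U) => hU u hu u₀ hu₀
  choose! g hg using fun w (hw : w ∈ W) => hW w hw w₀ hw₀
  have hf' : ∀ u ∈ U, u = u₀ + φ (f u) := by
    intro u hu
    have := hf u hu
    rw [hφ]
    simp only
    rw [← this]
    abel
  have hg' : ∀ w ∈ W, w = w₀ + φ (g w) := by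
    intro w hw
    have := hg w hw
    rw [hφ]
    simp only
    rw [← this]
    abel
  have hfi : Set.InjOn f U := by
    intro a ha b hb h
    rw [hf' a ha, hf' b hb, h]
  have hgi : Set.InjOn g W := by
    intro a ha b hb h
    rw [hg' a ha, hg' b hb, h]
  have hinj' : Function.Injective fun c => u₀ + w₀ + φ c := fun a b h =>
    hinj (add_left_cancel h)
  have h1 := bmZ (U.image f) (W.image g) (S.preimage (fun c => u₀ + w₀ + φ c) hinj'.injOn) (by
    intro x hx y hy δ hδ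
    obtain ⟨u, hu, rfl⟩ := Finset.mem_image.1 hx
    obtain ⟨w, hw, rfl⟩ := Finset.mem_image.1 hy
    rw [Finset.mem_preimage, hadd, hadd]
    have h2 := hS u hu w hw δ hδ
    have h3 : u₀ + w₀ + (φ (f u) + φ (g w) + φ δ) = (u₀ + φ (f u)) + (w₀ + φ (g w)) + φ δ := by abel
    rw [h3, ← hf' u hu, ← hg' w hw, hφ]
    exact h2)
  rw [Finset.card_image_of_injOn hfi, Finset.card_image_of_injOn hgi] at h1
  refine h1.trans (Nat.pow_le_pow_left ?_ 2)
  rw [← Finset.card_image_of_injective _ hinj']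
  apply Finset.card_le_card
  intro z hz
  obtain ⟨c, hc, rfl⟩ := Finset.mem_image.1 hz
  rw [Finset.mem_preimage] at hc
  exact hc

/-- the subgroup generated by the vectors -/
def spanv {r : ℕ} (v : Fin r → G) : AddSubgroup G where
  carrier := {x | ∃ c : Fin r → ℤ, x = ∑ i, c i • v i}
  zero_mem' := ⟨0, by simp⟩
  add_mem' := by
    rintro _ _ ⟨c, rfl⟩ ⟨d, rfl⟩
    exact ⟨c + d, by simp only [Pi.add_apply, add_smul, Finset.sum_add_distrib]⟩
  neg_mem' := by
    rintro _ ⟨c, rfl⟩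
    exact ⟨-c, by simp only [Pi.neg_apply, neg_smul, Finset.sum_neg_distrib]⟩

omit [DecidableEq G] in
theorem bmFib {r : ℕ} (v : Fin r → G) (hind : ∀ c : Fin r → ℤ, ∑ i, c i • v i = 0 → c = 0)
    (A B S : Finset G)
    (hS : ∀ a ∈ A, ∀ b ∈ B, ∀ δ : Fin r → ℤ, (∀ i, δ i = 0 ∨ δ i = 1) →
      a + b + ∑ i, δ i • v i ∈ S) (A₀ : Finset G) (hA₀ : A₀ ⊆ A)
    (hA₀' : ∀ u ∈ A₀, ∀ u' ∈ A₀, u - u' ∈ spanv v)
    (hmax : ∀ B₀ ⊆ B, (∀ u ∈ B₀, ∀ u' ∈ B₀, u - u' ∈ spanv v) → B₀.card ≤ A₀.card) :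
    2 ^ r * B.card ≤ S.card := by
  classical
  rcases A₀.eq_empty_or_nonempty with h0 | ⟨a₀, ha₀⟩
  · have hB : B = ∅ := by
      rw [Finset.eq_empty_iff_forall_notMem]
      intro b hb
      have := hmax {b} (by simpa using hb) (by
        intro u hu u' hu'
        rw [Finset.mem_singleton] at hu hu'
        rw [hu, hu', sub_self]
        exact (spanv v).zero_mem)
      rw [h0] at this
      simp at this
    rw [hB]
    simp
  obtain ⟨π, hπ⟩ : ∃ π : G → G ⧸ spanv v, π = fun x => QuotientAddGroup.mk x := ⟨_, rfl⟩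
  have hπe : ∀ x y, π x = π y ↔ x - y ∈ spanv v := by
    intro x y
    rw [hπ]
    simp only
    rw [eq_comm, QuotientAddGroup.eq, neg_add_eq_sub]
  have hπa : ∀ x y, π (x + y) = π x + π y := by
    intro x y
    rw [hπ]
    rfl
  have hδs : ∀ δ : Fin r → ℤ, π (∑ i, δ i • v i) = 0 := by
    intro δ
    have h1 : π (∑ i, δ i • v i) = π 0 := by
      rw [hπe, sub_zero]
      exact ⟨δ, rfl⟩
    rw [h1, hπ]
    rfl
  have hfib : ∀ q ∈ B.image π, 2 ^ r * (B.filter fun b => π b = q).card ≤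
      (S.filter fun s => π s = π a₀ + q).card := by
    intro q _
    have h1 := bmG v hind A₀ (B.filter fun b => π b = q) (S.filter fun s => π s = π a₀ + q)
      hA₀' (by
        intro u hu u' hu'
        rw [Finset.mem_filter] at hu hu'
        exact (hπe u u').1 (by rw [hu.2, hu'.2])) (by
        intro u hu w hw δ hδ
        rw [Finset.mem_filter] at hw ⊢
        refine ⟨hS u (hA₀ hu) w hw.1 δ hδ, ?_⟩
        rw [hπa, hπa, hδs, add_zero, hw.2, (hπe u a₀).2 (hA₀' u hu a₀ ha₀)])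
    have h2 := hmax (B.filter fun b => π b = q) (Finset.filter_subset _ _) (by
        intro u hu u' hu'
        rw [Finset.mem_filter] at hu hu'
        exact (hπe u u').1 (by rw [hu.2, hu'.2]))
    have h3 : (2 ^ r * (B.filter fun b => π b = q).card) ^ 2 ≤
        (S.filter fun s => π s = π a₀ + q).card ^ 2 := by
      refine le_trans ?_ h1
      have h4 : (4 : ℕ) ^ r = 2 ^ r * 2 ^ r := by rw [← mul_pow]; norm_num
      rw [h4, mul_pow, pow_two, pow_two, mul_assoc, mul_assoc]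
      gcongr
    exact le_of_sq_le_sq' h3
  have hB : B.card = ∑ q ∈ B.image π, (B.filter fun b => π b = q).card :=
    Finset.card_eq_sum_card_image π B
  rw [hB, Finset.mul_sum]
  calc ∑ q ∈ B.image π, 2 ^ r * (B.filter fun b => π b = q).card
      ≤ ∑ q ∈ B.image π, (S.filter fun s => π s = π a₀ + q).card := Finset.sum_le_sum hfib
    _ = ((B.image π).biUnion fun q => S.filter fun s => π s = π a₀ + q).card := by
        rw [Finset.card_biUnion]
        intro q _ q' _ hqq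
        rw [Function.onFun, Finset.disjoint_left]
        intro s hs hs'
        rw [Finset.mem_filter] at hs hs'
        exact hqq (add_left_cancel (hs.2.symm.trans hs'.2))
    _ ≤ S.card := by
        apply Finset.card_le_card
        intro s hs
        obtain ⟨q, -, hs⟩ := Finset.mem_biUnion.1 hs
        exact (Finset.mem_filter.1 hs).1
where
  le_of_sq_le_sq' {a b : ℕ} (h : a ^ 2 ≤ b ^ 2) : a ≤ b := by
    by_contra hcon
    push Not at hcon
    have := Nat.pow_lt_pow_left hcon (two_ne_zero)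
    omega

omit [DecidableEq G] in
/-- **the inequality in an arbitrary abelian group** -/
theorem bmMin {r : ℕ} (v : Fin r → G) (hind : ∀ c : Fin r → ℤ, ∑ i, c i • v i = 0 → c = 0)
    (A B S : Finset G)
    (hS : ∀ a ∈ A, ∀ b ∈ B, ∀ δ : Fin r → ℤ, (∀ i, δ i = 0 ∨ δ i = 1) →
      a + b + ∑ i, δ i • v i ∈ S) : 2 ^ r * min A.card B.card ≤ S.card := by
  classical
  obtain ⟨A₀, hA₀, hAm⟩ := Finset.exists_max_image
    (A.powerset.filter fun A₀ => ∀ u ∈ A₀, ∀ u' ∈ A₀, u - u' ∈ spanv v) Finset.card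
    ⟨∅, by simp⟩
  obtain ⟨B₀, hB₀, hBm⟩ := Finset.exists_max_image
    (B.powerset.filter fun A₀ => ∀ u ∈ A₀, ∀ u' ∈ A₀, u - u' ∈ spanv v) Finset.card
    ⟨∅, by simp⟩
  rw [Finset.mem_filter, Finset.mem_powerset] at hA₀ hB₀
  rcases le_total B₀.card A₀.card with h | h
  · have h1 := bmFib v hind A B S hS A₀ hA₀.1 hA₀.2 (by
      intro B₁ hB₁ hB₁'
      exact (hBm B₁ (by rw [Finset.mem_filter, Finset.mem_powerset]; exact ⟨hB₁, hB₁'⟩)).trans h)
    exact (Nat.mul_le_mul_left _ (min_le_right _ _)).trans h1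
  · have h1 := bmFib v hind B A S (by
      intro b hb a ha δ hδ
      rw [add_comm b a]
      exact hS a ha b hb δ hδ) B₀ hB₀.1 hB₀.2 (by
      intro A₁ hA₁ hA₁'
      exact (hAm A₁ (by rw [Finset.mem_filter, Finset.mem_powerset]; exact ⟨hA₁, hA₁'⟩)).trans h)
    exact (Nat.mul_le_mul_left _ (min_le_left _ _)).trans h1

end Pool.Agent.U546.PV
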