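import Pool.Agent.U546.PV.Struct
import Mathlib.Combinatorics.Additive.PluenneckeRuzsa
import Mathlib.Combinatorics.Additive.RuzsaCovering

/-!
# Nested almost periods give progressions of small rank
-/

set_option autoImplicit false

namespace Pool.Agent.U546.PV

open Finset
open scoped Pointwise

variable {G : Type*} [AddCommGroup G] [DecidableEq G]

/-- the number of elements of `B` that leave `B` under the shift by `t` -/
def dst (B : Finset G) (t : G) : ℕ := (B.filter fun b => b + t ∉ B).card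

theorem dst_zero (B : Finset G) : dst B 0 = 0 := by
  unfold dst
  rw [card_eq_zero, filter_eq_empty_iff]
  intro b hb
  rw [add_zero]
  exact fun h => h hb

theorem dst_compl (B : Finset G) (t : G) :
    (B.filter fun b => b + t ∈ B).card + dst B t = B.card :=
  card_filter_add_card_filter_not _

theorem dst_neg (B : Finset G) (t : G) : dst B (-t) = dst B t := by
  have h1 := dst_compl B t
  have h2 := dst_compl B (-t)
  have h3 : (B.filter fun b => b + t ∈ B).card = (B.filter fun b => b + -t ∈ B).card := by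
    refine card_bij (fun b _ => b + t) ?_ ?_ ?_
    · intro b hb
      rw [mem_filter] at hb ⊢
      exact ⟨hb.2, by rw [add_neg_cancel_right]; exact hb.1⟩
    · intro a _ b _ h
      exact add_left_injective t h
    · intro b hb
      rw [mem_filter] at hb
      exact ⟨b + -t, by rw [mem_filter]; exact ⟨hb.2, by rw [neg_add_cancel_right]; exact hb.1⟩,
        by rw [neg_add_cancel_right]⟩
  omega

theorem dst_add (B : Finset G) (s t : G) : dst B (s + t) ≤ dst B s + dst B t := by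
  unfold dst
  have h1 : (B.filter fun b => b + (s + t) ∉ B) ⊆
      (B.filter fun b => b + s ∉ B) ∪ (B.filter fun b => b + s ∈ B ∧ b + s + t ∉ B) := by
    intro b hb
    rw [mem_filter] at hb
    rw [mem_union, mem_filter, mem_filter]
    by_cases h : b + s ∈ B
    · exact Or.inr ⟨hb.1, h, by rw [add_assoc]; exact hb.2⟩
    · exact Or.inl ⟨hb.1, h⟩
  have h2 : (B.filter fun b => b + s ∈ B ∧ b + s + t ∉ B).card ≤
      (B.filter fun b => b + t ∉ B).card := by
    refine card_le_card_of_injOn (fun b => b + s) ?_ ?_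
    · intro b hb
      rw [mem_coe, mem_filter] at hb ⊢
      exact ⟨hb.2.1, hb.2.2⟩
    · intro a _ b _ h
      exact add_left_injective s h
  exact (card_le_card h1).trans ((card_union_le _ _).trans (by omega))

open scoped Classical in
/-- the `τ`-almost periods of `B` in `B - B` -/
noncomputable def PG (B : Finset G) (τ : ℝ) : Finset G :=
  (B - B).filter fun t => (dst B t : ℝ) ≤ τ * B.card

theorem mem_PG {B : Finset G} (hB : B.Nonempty) {τ : ℝ} (hτ : τ < 1) (t : G) :
    t ∈ PG B τ ↔ (dst B t : ℝ) ≤ τ * B.card := by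
  unfold PG
  rw [mem_filter]
  refine ⟨fun h => h.2, fun h => ⟨?_, h⟩⟩
  have hBc : (0 : ℝ) < B.card := by exact_mod_cast hB.card_pos
  have h1 : (dst B t : ℝ) < B.card := by nlinarith
  have h2 : dst B t < B.card := by exact_mod_cast h1
  have h3 := dst_compl B t
  have h4 : 0 < (B.filter fun b => b + t ∈ B).card := by omega
  obtain ⟨b, hb⟩ := card_pos.1 h4
  rw [mem_filter] at hb
  rw [mem_sub]
  exact ⟨b + t, hb.2, b, hb.1, by abel⟩

theorem zero_mem_PG {B : Finset G} (hB : B.Nonempty) {τ : ℝ} (hτ0 : 0 ≤ τ) (hτ : τ < 1) :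
    (0 : G) ∈ PG B τ := by
  rw [mem_PG hB hτ, dst_zero]
  push_cast
  positivity

theorem neg_mem_PG {B : Finset G} (hB : B.Nonempty) {τ : ℝ} (hτ : τ < 1) {t : G}
    (h : t ∈ PG B τ) : -t ∈ PG B τ := by
  rw [mem_PG hB hτ] at h ⊢
  rw [dst_neg]
  exact h

theorem neg_PG {B : Finset G} (hB : B.Nonempty) {τ : ℝ} (hτ : τ < 1) : -PG B τ = PG B τ := by
  ext t
  rw [mem_neg']
  constructor
  · intro h
    have := neg_mem_PG hB hτ h
    rwa [neg_neg] at this
  · exact fun h => neg_mem_PG hB hτ h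

theorem add_PG {B : Finset G} (hB : B.Nonempty) {σ τ : ℝ} (hσ : 0 ≤ σ) (hτ : 0 ≤ τ)
    (h : σ + τ < 1) : PG B σ + PG B τ ⊆ PG B (σ + τ) := by
  intro x hx
  obtain ⟨s, hs, t, ht, rfl⟩ := mem_add.1 hx
  rw [mem_PG hB (by linarith)] at hs ht ⊢
  have : ((dst B (s + t) : ℕ) : ℝ) ≤ dst B s + dst B t := by exact_mod_cast dst_add B s t
  linarith

/-- the sumset with the almost periods is at most twice the sumset with the set -/
theorem card_add_PG {A B : Finset G} (hB : B.Nonempty) {τ : ℝ} (hτ : τ ≤ 1 / 2) :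
    (A + PG B τ).card ≤ 2 * (A + B).card := by
  have hBc : 0 < B.card := hB.card_pos
  have key : ∀ x ∈ A + PG B τ, B.card ≤ 2 * (B.filter fun b => x + b ∈ A + B).card := by
    intro x hx
    obtain ⟨a, ha, t, ht, rfl⟩ := mem_add.1 hx
    rw [mem_PG hB (by linarith)] at ht
    have h1 := dst_compl B t
    have h2 : 2 * dst B t ≤ B.card := by
      have h3 : (2 * dst B t : ℝ) ≤ B.card := by
        have : τ * B.card ≤ 1 / 2 * B.card := mul_le_mul_of_nonneg_right hτ (Nat.cast_nonneg _)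
        linarith
      exact_mod_cast h3
    have h3 : (B.filter fun b => b + t ∈ B) ⊆ B.filter fun b => a + t + b ∈ A + B := by
      intro b hb
      rw [mem_filter] at hb ⊢
      refine ⟨hb.1, ?_⟩
      rw [add_assoc, add_comm t b]
      exact add_mem_add ha hb.2
    have h4 := card_le_card h3
    omega
  have h1 : (A + PG B τ).card * B.card ≤ 2 * ((A + B).card * B.card) := by
    calc (A + PG B τ).card * B.card = ∑ _x ∈ A + PG B τ, B.card := by
          rw [sum_const, smul_eq_mul]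
      _ ≤ ∑ x ∈ A + PG B τ, 2 * (B.filter fun b => x + b ∈ A + B).card := sum_le_sum key
      _ = 2 * ((A + PG B τ).sigma fun x => B.filter fun b => x + b ∈ A + B).card := by
          rw [← mul_sum, card_sigma]
      _ ≤ 2 * ((A + B) ×ˢ B).card := by
          apply Nat.mul_le_mul_left
          refine card_le_card_of_injOn (fun p => (p.1 + p.2, p.2)) ?_ ?_
          · intro p hp
            rw [mem_coe, mem_sigma, mem_filter] at hp
            rw [mem_coe, mem_product]
            exact ⟨hp.2.2, hp.2.1⟩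
          · rintro ⟨x, b⟩ _ ⟨x', b'⟩ _ h
            simp only [Prod.mk.injEq] at h
            obtain ⟨h1, rfl⟩ := h
            have h2 : x = x' := add_right_cancel h1
            rw [h2]
      _ = 2 * ((A + B).card * B.card) := by rw [card_product]
  have h2 : (A + PG B τ).card * B.card ≤ (2 * (A + B).card) * B.card := by
    rw [mul_assoc]; exact h1
  exact Nat.le_of_mul_le_mul_right h2 hBc

theorem card_PG {B : Finset G} (hB : B.Nonempty) {τ : ℝ} (hτ : τ ≤ 1 / 2) :
    (PG B τ).card ≤ 2 * B.card := by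
  have h := card_add_PG (A := {0}) hB hτ
  rw [singleton_zero, zero_add, zero_add] at h
  exact h

/-- a scale at which the almost periods have small doubling -/
theorem scale {B : Finset G} (hB : B.Nonempty) (J : ℕ) (hJ : 1 ≤ J) (M : ℝ) (hM : 1 ≤ M)
    (h : (B.card : ℝ) ≤ M * (PG B ((1 / 2) ^ (J + 1))).card) :
    ∃ X : Finset G, X.Nonempty ∧ -X = X ∧ X + X ⊆ PG B (1 / 2) ∧ X ⊆ PG B (1 / 2) ∧
      ((X + X).card : ℝ) ≤ Real.exp (Real.log (2 * M) / J) * X.card ∧
      (B.card : ℝ) ≤ M * X.card := by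
  have hJ0 : (0 : ℝ) < J := by exact_mod_cast hJ
  obtain ⟨ρ, hρ⟩ : ∃ ρ : ℝ, ρ = Real.exp (Real.log (2 * M) / J) := ⟨_, rfl⟩
  have hρ1 : 1 ≤ ρ := by
    rw [hρ]
    apply Real.one_le_exp
    have : 0 ≤ Real.log (2 * M) := Real.log_nonneg (by linarith)
    positivity
  have hρJ : ρ ^ J = 2 * M := by
    rw [hρ, ← Real.exp_nat_mul, mul_div_cancel₀ _ hJ0.ne', Real.exp_log (by linarith)]
  obtain ⟨τ, hτ⟩ : ∃ τ : ℕ → ℝ, τ = fun j => (1 / 2 : ℝ) ^ (J + 1 - j) := ⟨_, rfl⟩
  have hτ0 : ∀ j, 0 < τ j := by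
    intro j; rw [hτ]; positivity
  have hτh : ∀ j, j ≤ J → τ j ≤ 1 / 2 := by
    intro j hj
    rw [hτ]
    have h1 : (1 / 2 : ℝ) ^ (J + 1 - j) ≤ (1 / 2 : ℝ) ^ 1 :=
      pow_le_pow_of_le_one (by norm_num) (by norm_num) (by omega)
    simpa using h1
  have hτs : ∀ j, j < J → τ j + τ j = τ (j + 1) := by
    intro j hj
    rw [hτ]
    simp only
    have : J + 1 - j = (J + 1 - (j + 1)) + 1 := by omega
    rw [this, pow_succ]
    ring
  have hmono : ∀ j, j < J → PG B (τ j) ⊆ PG B (τ (j + 1)) := by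
    intro j hj t ht
    have h1 := hτh (j + 1) (by omega)
    have h2 := hτh j (by omega)
    rw [mem_PG hB (by linarith)] at ht ⊢
    have h3 : τ j ≤ τ (j + 1) := by
      have := hτs j hj
      have := hτ0 j
      linarith
    have : τ j * B.card ≤ τ (j + 1) * B.card := mul_le_mul_of_nonneg_right h3 (Nat.cast_nonneg _)
    linarith
  have hmono' : ∀ j, j ≤ J → ∀ i, j ≤ i → i ≤ J → PG B (τ j) ⊆ PG B (τ i) := by
    intro j hj i hji
    induction i, hji using Nat.le_induction with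
    | base => intro _; exact Subset.refl _
    | succ i hi ih => intro hiJ; exact (ih (by omega)).trans (hmono i (by omega))
  have hτJ : τ J = 1 / 2 := by
    rw [hτ]
    simp
  have hτ00 : τ 0 = (1 / 2) ^ (J + 1) := by
    rw [hτ]
    simp
  -- the pigeonhole
  obtain ⟨j, hj, h1⟩ : ∃ j, j < J ∧ ((PG B (τ (j + 1))).card : ℝ) ≤ ρ * (PG B (τ j)).card := by
    by_contra hcon
    push Not at hcon
    have key : ∀ j, j + 1 ≤ J → ρ ^ (j + 1) * (PG B (τ 0)).card < (PG B (τ (j + 1))).card := by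
      intro j
      induction j with
      | zero =>
        intro h1
        have := hcon 0 (by omega)
        simpa using this
      | succ j ih =>
        intro h1
        have h2 := ih (by omega)
        have h3 := hcon (j + 1) (by omega)
        calc ρ ^ (j + 1 + 1) * ((PG B (τ 0)).card : ℝ) = ρ * (ρ ^ (j + 1) * (PG B (τ 0)).card) := by ring
          _ < ρ * (PG B (τ (j + 1))).card := mul_lt_mul_of_pos_left h2 (by linarith)
          _ < _ := h3
    obtain ⟨k, rfl⟩ : ∃ k, J = k + 1 := ⟨J - 1, by omega⟩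
    have h2 := key k le_rfl
    rw [hρJ, hτJ, hτ00] at h2
    have h3 : ((PG B (1 / 2)).card : ℝ) ≤ 2 * B.card := by exact_mod_cast card_PG hB le_rfl
    linarith
  have hXX : PG B (τ j) + PG B (τ j) ⊆ PG B (τ (j + 1)) := by
    rw [← hτs j hj]
    have := hτh (j + 1) (by omega)
    exact add_PG hB (hτ0 j).le (hτ0 j).le (by rw [hτs j hj]; linarith)
  refine ⟨PG B (τ j), ⟨0, zero_mem_PG hB (hτ0 j).le ?_⟩, neg_PG hB ?_, ?_, ?_, ?_, ?_⟩
  · have := hτh j (by omega); linarith
  · have := hτh j (by omega); linarith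
  · rw [← hτJ]
    exact hXX.trans (hmono' (j + 1) (by omega) J (by omega) le_rfl)
  · rw [← hτJ]
    exact hmono' j (by omega) J (by omega) le_rfl
  · rw [← hρ]
    refine le_trans ?_ h1
    exact_mod_cast card_le_card hXX
  · refine h.trans (mul_le_mul_of_nonneg_left ?_ (by linarith))
    rw [← hτ00]
    exact_mod_cast card_le_card (hmono' 0 (by omega) j (by omega) (by omega))

/-- the input for the covering theorem -/
theorem input {A B : Finset G} (hA : A.Nonempty) (hB : B.Nonempty) {K : ℝ} (hK1 : 1 ≤ K)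
    (hKA : ((A + B).card : ℝ) ≤ K * A.card) (hKB : ((A + B).card : ℝ) ≤ K * B.card)
    (J : ℕ) (hJ : 1 ≤ J) (M : ℝ) (hM : 1 ≤ M)
    (h : (B.card : ℝ) ≤ M * (PG B ((1 / 2) ^ (J + 1))).card) :
    ∃ X S' : Finset G, X.Nonempty ∧
      ((X + X).card : ℝ) ≤ Real.exp (4 * (Real.log (2 * M) / J)) * X.card ∧
      (∀ a ∈ A, ∃ s ∈ S', a - s ∈ X) ∧ (X.card : ℝ) ≤ (2 * K) * A.card ∧
      (S'.card : ℝ) ≤ 2 * K * M := by
  obtain ⟨X, hX0, hXs, hXX, hXh, hXd, hXM⟩ := scale hB J hJ M hM h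
  have hXc : (0 : ℝ) < X.card := by exact_mod_cast hX0.card_pos
  have hXsub : X - X = X + X := by rw [sub_eq_add_neg, hXs]
  have h1 : ((A + X).card : ℝ) ≤ (2 * K * M) * X.card := by
    have h2 : ((A + X).card : ℝ) ≤ 2 * (A + B).card := by
      have h3 := card_le_card (add_subset_add_left (s := A) hXh)
      have h4 := card_add_PG (A := A) hB (τ := 1 / 2) le_rfl
      exact_mod_cast h3.trans h4
    calc ((A + X).card : ℝ) ≤ 2 * (A + B).card := h2
      _ ≤ 2 * (K * B.card) := by linarith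
      _ ≤ 2 * (K * (M * X.card)) := by gcongr
      _ = _ := by ring
  obtain ⟨F, -, hF, hcov⟩ := ruzsa_covering_add hX0 h1
  refine ⟨X + X, F, hX0.add hX0, ?_, ?_, ?_, hF⟩
  · -- Plünnecke
    have h2 := pluennecke_ruzsa_inequality_nsmul_add hX0 X 4
    have h3 : X + X + (X + X) = 4 • X := by
      have : (4 : ℕ) • X = (2 : ℕ) • X + (2 : ℕ) • X := by rw [← add_nsmul]
      rw [this, two_nsmul]
    have h4 : ((4 • X).card : ℝ) ≤ ((X + X).card / X.card : ℝ) ^ 4 * X.card := by
      have := (NNRat.cast_le (K := ℝ)).2 h2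
      push_cast at this
      exact this
    have h5 : ((X + X).card / X.card : ℝ) ≤ Real.exp (Real.log (2 * M) / J) := by
      rw [div_le_iff₀ hXc]
      exact hXd
    have h6 : ((X.card : ℕ) : ℝ) ≤ (X + X).card := by
      exact_mod_cast card_le_card_add_self
    rw [h3]
    calc ((4 • X).card : ℝ) ≤ ((X + X).card / X.card : ℝ) ^ 4 * X.card := h4
      _ ≤ (Real.exp (Real.log (2 * M) / J)) ^ 4 * (X + X).card := by gcongr
      _ = _ := by
          rw [← Real.exp_nat_mul]
          norm_num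
  · intro a ha
    have h2 := hcov ha
    obtain ⟨s, hs, x, hx, rfl⟩ := mem_add.1 h2
    refine ⟨s, hs, ?_⟩
    rw [add_sub_cancel_left, ← hXsub]
    exact hx
  · have h2 : ((X + X).card : ℝ) ≤ 2 * B.card := by
      exact_mod_cast (card_le_card hXX).trans (card_PG hB le_rfl)
    have h3 : (B.card : ℝ) ≤ (A + B).card := by
      exact_mod_cast card_le_card_add_left hA
    linarith

/-- **covering by translates of a convex coset progression** -/
theorem T0 {A B : Finset G} (hA : A.Nonempty) (hB : B.Nonempty) {K : ℝ} (hK1 : 1 ≤ K)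
    (hKA : ((A + B).card : ℝ) ≤ K * A.card) (hKB : ((A + B).card : ℝ) ≤ K * B.card)
    (J : ℕ) (hJ : 1 ≤ J) (M : ℝ) (hM : 1 ≤ M)
    (h : (B.card : ℝ) ≤ M * (PG B ((1 / 2) ^ (J + 1))).card) {κ : ℝ}
    (hκ : κ = Real.log 2 + 4 * (Real.log (2 * M) / J)) :
    ∃ (d : ℕ) (Q : Set (Fin d → ℝ)) (ψ : (Fin d → ℤ) →+ G) (H₀ : AddSubgroup G) (T : Finset G),
      (d : ℝ) ≤ max (300 * κ) 1 ∧ H112.SymmBody Q ∧ Finite H₀ ∧
      {c : Fin d → ℤ | (fun i => (c i : ℝ)) ∈ Q}.ncard * Nat.card H₀ ≤ A.card ∧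
      (T.card : ℝ) ≤ 4 * K ^ 2 * M * Real.exp (13000 * κ * (1 + Real.log (1 + κ))) ∧
      H112.Covers Q ψ H₀ T A := by
  obtain ⟨X, S', hX0, hXd, hcov, hXW, hS'⟩ := input hA hB hK1 hKA hKB J hJ M hM h
  have hJ0 : (0 : ℝ) < J := by exact_mod_cast hJ
  have hL : 0 ≤ Real.log (2 * M) := Real.log_nonneg (by linarith)
  have hκ' : κ = Real.log (2 * Real.exp (4 * (Real.log (2 * M) / J))) := by
    rw [Real.log_mul (by norm_num) (Real.exp_pos _).ne', Real.log_exp, hκ]
  have hκ0 : 0 ≤ κ := by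
    rw [hκ]
    have : 0 < Real.log 2 := Real.log_pos (by norm_num)
    positivity
  obtain ⟨d, Q, ψ, H₀, T, hd, hQ, hH₀, hvol, hT, hc⟩ := cover_gen hA hX0 hXd
    (Real.one_le_exp (by positivity)) hκ' hcov hXW (by linarith)
  refine ⟨d, Q, ψ, H₀, T, hd, hQ, hH₀, hvol, hT.trans ?_, hc⟩
  apply mul_le_mul_of_nonneg_right _ (Real.exp_pos _).le
  calc (S'.card : ℝ) * (2 * K) ≤ (2 * K * M) * (2 * K) := by
        apply mul_le_mul_of_nonneg_right hS' (by linarith)
    _ = 4 * K ^ 2 * M := by ring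

/-- **covering by translates of a proper progression**, torsion-free groups -/
theorem T0gap (htf : ∀ (n : ℕ) (x : G), n ≠ 0 → n • x = 0 → x = 0)
    {A B : Finset G} (hA : A.Nonempty) (hB : B.Nonempty) {K : ℝ} (hK1 : 1 ≤ K)
    (hKA : ((A + B).card : ℝ) ≤ K * A.card) (hKB : ((A + B).card : ℝ) ≤ K * B.card)
    (J : ℕ) (hJ : 1 ≤ J) (M : ℝ) (hM : 1 ≤ M)
    (h : (B.card : ℝ) ≤ M * (PG B ((1 / 2) ^ (J + 1))).card) {κ : ℝ}
    (hκ : κ = Real.log 2 + 4 * (Real.log (2 * M) / J)) :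
    ∃ (k : ℕ) (v : Fin k → G) (L : Fin k → ℕ) (T : Finset G),
      (k : ℝ) ≤ 300 * κ ∧
      (∀ a b : Fin k → ℤ, (∀ i, |a i| ≤ L i) → (∀ i, |b i| ≤ L i) →
        ∑ i, a i • v i = ∑ i, b i • v i → a = b) ∧
      ∏ i, (2 * L i + 1) ≤ A.card ∧
      (T.card : ℝ) ≤ 4 * K ^ 2 * M * Real.exp (17000 * κ * (1 + Real.log (1 + κ))) ∧
      ∀ a ∈ A, ∃ t ∈ T, ∃ c : Fin k → ℤ, (∀ i, |c i| ≤ L i) ∧ a = t + ∑ i, c i • v i := by
  obtain ⟨X, S', hX0, hXd, hcov, hXW, hS'⟩ := input hA hB hK1 hKA hKB J hJ M hM h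
  have hJ0 : (0 : ℝ) < J := by exact_mod_cast hJ
  have hL : 0 ≤ Real.log (2 * M) := Real.log_nonneg (by linarith)
  have hκ' : κ = Real.log (2 * Real.exp (4 * (Real.log (2 * M) / J))) := by
    rw [Real.log_mul (by norm_num) (Real.exp_pos _).ne', Real.log_exp, hκ]
  have hκ0 : 0 ≤ κ := by
    rw [hκ]
    have : 0 < Real.log 2 := Real.log_pos (by norm_num)
    positivity
  obtain ⟨k, v, L, T, hk, hprop, hvol, hT, hc⟩ := gap_gen htf hA hX0 hXd
    (Real.one_le_exp (by positivity)) hκ' hcov hXW (by linarith)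
  refine ⟨k, v, L, T, hk, hprop, hvol, hT.trans ?_, hc⟩
  apply mul_le_mul_of_nonneg_right _ (Real.exp_pos _).le
  calc (S'.card : ℝ) * (2 * K) ≤ (2 * K * M) * (2 * K) := by
        apply mul_le_mul_of_nonneg_right hS' (by linarith)
    _ = 4 * K ^ 2 * M := by ring

end Pool.Agent.U546.PV
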