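import Pool.Agent.U546.PV.VC

/-!
# Polynomial bounds with dimension `O(d)` for sets commensurate with a set of VC-dimension `d`
-/

set_option autoImplicit false

namespace Pool.Agent.U546.PV

open Finset
open scoped Pointwise

/-- numerical estimates -/
theorem num {R : ℝ} (hR : 2 ≤ R) {D J : ℕ} (hD : 1 ≤ D) (hJ : J = ⌈Real.log R⌉₊) :
    1 ≤ J ∧ 1 ≤ R ^ D ∧ Real.log (2 * R ^ D) / J ≤ 2 * D ∧ (2 : ℝ) ^ J ≤ 2 * R := by
  have hlog2 := Real.log_two_gt_d9
  have hlog2' := Real.log_two_lt_d9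
  have hD1 : (1 : ℝ) ≤ D := by exact_mod_cast hD
  have hR0 : 0 < R := by linarith
  have hℓ2 : Real.log 2 ≤ Real.log R := Real.log_le_log (by norm_num) hR
  have hℓ0 : 0 < Real.log R := by linarith
  have hJ1 : Real.log R ≤ J := by rw [hJ]; exact Nat.le_ceil _
  have hJ2 : (J : ℝ) < Real.log R + 1 := by rw [hJ]; exact Nat.ceil_lt_add_one hℓ0.le
  have hJ0 : 0 < J := by rw [hJ]; exact Nat.ceil_pos.2 hℓ0
  have hJ0' : (0 : ℝ) < J := by exact_mod_cast hJ0
  refine ⟨hJ0, one_le_pow₀ (by linarith), ?_, ?_⟩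
  · rw [div_le_iff₀ hJ0', Real.log_mul (by norm_num) (by positivity), Real.log_pow]
    have h1 : Real.log 2 ≤ D * Real.log R := by nlinarith
    have h2 : (D : ℝ) * Real.log R ≤ D * J := by gcongr
    nlinarith
  · have h1 : (2 : ℝ) ^ J = Real.exp (J * Real.log 2) := by
      rw [Real.exp_nat_mul, Real.exp_log (by norm_num)]
    rw [h1]
    have h2 : (2 : ℝ) * R = Real.exp (Real.log 2 + Real.log R) := by
      rw [Real.exp_add, Real.exp_log (by norm_num), Real.exp_log hR0]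
    rw [h2]
    apply Real.exp_le_exp.2
    have h3 : (J : ℝ) * Real.log 2 ≤ (Real.log R + 1) * Real.log 2 :=
      mul_le_mul_of_nonneg_right hJ2.le (by linarith)
    nlinarith

theorem numκ {D : ℕ} (hD : 1 ≤ D) {κ : ℝ} (hκ0 : 0 ≤ κ) (hκ : κ ≤ 9 * D) (c : ℝ) (hc : 0 ≤ c) :
    Real.exp (c * κ * (1 + Real.log (1 + κ))) ≤ Real.exp (49.5 * c * D * Real.log (1 + D)) := by
  have hD1 : (1 : ℝ) ≤ D := by exact_mod_cast hD
  have hlog2 := Real.log_two_gt_d9
  apply Real.exp_le_exp.2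
  have h1 : Real.log (1 + κ) ≤ 4 * Real.log (1 + D) := by
    have h2 : Real.log (1 + κ) ≤ Real.log ((1 + (D : ℝ)) ^ 4) := by
      apply Real.log_le_log (by linarith)
      have h3 : (9 : ℝ) * D + 1 ≤ (1 + (D : ℝ)) ^ 4 := by
        have h4 : (2 : ℝ) ^ 3 ≤ (1 + (D : ℝ)) ^ 3 := pow_le_pow_left₀ (by norm_num) (by linarith) 3
        have h5 : (1 + (D : ℝ)) ^ 4 = (1 + (D : ℝ)) ^ 3 * (1 + D) := by ring
        rw [h5]
        have h6 : (8 : ℝ) * (1 + D) ≤ (1 + (D : ℝ)) ^ 3 * (1 + D) := by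
          apply mul_le_mul_of_nonneg_right _ (by linarith)
          norm_num at h4
          exact h4
        have h7 : (1 + (D : ℝ)) ^ 3 ≥ 8 + (D - 1) * 12 := by nlinarith [sq_nonneg ((D : ℝ) - 1)]
        nlinarith
      linarith
    rw [Real.log_pow] at h2
    exact_mod_cast h2
  have h2 : Real.log 2 ≤ Real.log (1 + D) := Real.log_le_log (by norm_num) (by linarith)
  have h3 : 1 + Real.log (1 + κ) ≤ 5.5 * Real.log (1 + D) := by linarith
  calc c * κ * (1 + Real.log (1 + κ)) ≤ c * (9 * D) * (5.5 * Real.log (1 + D)) := by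
        have h4 : 0 ≤ Real.log (1 + κ) := Real.log_nonneg (by linarith)
        gcongr
    _ = 49.5 * c * D * Real.log (1 + D) := by ring

theorem expD {D : ℕ} (c : ℕ) (x : ℝ) (hx : x ≤ c) :
    Real.exp (x * D * Real.log (1 + D)) ≤ (1 + (D : ℝ)) ^ (c * D) := by
  have h5 : (0 : ℝ) ≤ Real.log (1 + D) := Real.log_nonneg (by
    have : (0 : ℝ) ≤ D := Nat.cast_nonneg _
    linarith)
  calc Real.exp (x * D * Real.log (1 + D)) ≤ Real.exp ((c * D : ℕ) * Real.log (1 + D)) := by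
        apply Real.exp_le_exp.2
        push_cast
        have : (0 : ℝ) ≤ D * Real.log (1 + D) := by positivity
        nlinarith
    _ = _ := by rw [Real.exp_nat_mul, Real.exp_log (by positivity)]

variable {G : Type} [AddCommGroup G] [DecidableEq G]

theorem one_le_K {A B : Finset G} (hA : A.Nonempty) (hB : B.Nonempty) {K : ℝ}
    (hKB : ((A + B).card : ℝ) ≤ K * B.card) : 1 ≤ K := by
  have hBc : (0 : ℝ) < B.card := by exact_mod_cast hB.card_pos
  have hBn : (B.card : ℝ) ≤ (A + B).card := by exact_mod_cast card_le_card_add_left hA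
  by_contra hcon
  push Not at hcon
  nlinarith

theorem mono_PG {B : Finset G} {σ τ : ℝ} (h : σ ≤ τ) : PG B σ ⊆ PG B τ := by
  classical
  intro t ht
  unfold PG at ht ⊢
  rw [mem_filter] at ht ⊢
  refine ⟨ht.1, ht.2.trans ?_⟩
  exact mul_le_mul_of_nonneg_right h (Nat.cast_nonneg _)

/-- small VC-dimension gives many almost periods -/
theorem vcR {A B : Finset G} (hA : A.Nonempty) (hB : B.Nonempty) {K : ℝ}
    (hKA : ((A + B).card : ℝ) ≤ K * A.card) (hKB : ((A + B).card : ℝ) ≤ K * B.card)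
    {d : ℕ} (hVC : VCle A B d) {δ : ℝ} (hδ : 0 < δ) (hδ2 : δ ≤ 1 / 2) :
    (B.card : ℝ) ≤ K * (11 * K / δ) ^ d * (PG B δ).card := by
  have hK1 := one_le_K hA hB hKB
  have hBn : (B.card : ℝ) ≤ (A + B).card := by exact_mod_cast card_le_card_add_left hA
  have h1 := vcP hA hB hVC hKB hδ hδ2
  calc (B.card : ℝ) ≤ K * A.card := hBn.trans hKA
    _ ≤ K * ((11 * K / δ) ^ d * (PG B δ).card) := by gcongr
    _ = _ := by ring

/-- **dimension `O(D)` and polynomially many translates** -/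
theorem T2 {A B : Finset G} (hA : A.Nonempty) (hB : B.Nonempty) {K : ℝ} {D : ℕ} (hD : 1 ≤ D)
    (hKA : ((A + B).card : ℝ) ≤ K * A.card) (hKB : ((A + B).card : ℝ) ≤ K * B.card)
    (hper : (B.card : ℝ) ≤ (2 * K) ^ D * (PG B (1 / (8 * K))).card) :
    ∃ (m : ℕ) (Q : Set (Fin m → ℝ)) (ψ : (Fin m → ℤ) →+ G) (H₀ : AddSubgroup G) (T : Finset G),
      m ≤ 2700 * D ∧ H112.SymmBody Q ∧ Finite H₀ ∧
      {c : Fin m → ℤ | (fun i => (c i : ℝ)) ∈ Q}.ncard * Nat.card H₀ ≤ A.card ∧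
      (T.card : ℝ) ≤ (2 * K) ^ (3 * D) * (1 + (D : ℝ)) ^ (650000 * D) ∧
      H112.Covers Q ψ H₀ T A := by
  have hK1 := one_le_K hA hB hKB
  have hD1 : (1 : ℝ) ≤ D := by exact_mod_cast hD
  have hlog2' := Real.log_two_lt_d9
  obtain ⟨J, hJ⟩ : ∃ J : ℕ, J = ⌈Real.log (2 * K)⌉₊ := ⟨_, rfl⟩
  obtain ⟨hJ1, hM1, hκ1, hJR⟩ := num (by linarith : 2 ≤ 2 * K) hD hJ
  have hper' : (B.card : ℝ) ≤ (2 * K) ^ D * (PG B ((1 / 2) ^ (J + 1))).card := by
    refine hper.trans (mul_le_mul_of_nonneg_left ?_ (by positivity))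
    have h1 : 1 / (8 * K) ≤ (1 / 2 : ℝ) ^ (J + 1) := by
      rw [one_div_pow]
      apply one_div_le_one_div_of_le (by positivity)
      rw [pow_succ]
      linarith
    exact_mod_cast card_le_card (mono_PG h1)
  obtain ⟨κ, hκ⟩ : ∃ κ : ℝ, κ = Real.log 2 + 4 * (Real.log (2 * (2 * K) ^ D) / J) := ⟨_, rfl⟩
  have hκ9 : κ ≤ 9 * D := by rw [hκ]; linarith
  have hκ0 : 0 ≤ κ := by
    rw [hκ]
    have h1 : 0 ≤ Real.log (2 * (2 * K) ^ D) := Real.log_nonneg (by linarith)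
    have h2 : 0 < Real.log 2 := Real.log_pos (by norm_num)
    positivity
  obtain ⟨m, Q, ψ, H₀, T, hm, hQ, hH₀, hvol, hT, hc⟩ :=
    T0 hA hB hK1 hKA hKB J hJ1 _ hM1 hper' hκ
  refine ⟨m, Q, ψ, H₀, T, ?_, hQ, hH₀, hvol, hT.trans ?_, hc⟩
  · have h1 : max (300 * κ) 1 ≤ 2700 * D := max_le (by linarith) (by linarith)
    exact_mod_cast hm.trans h1
  · have h2 : 4 * K ^ 2 * (2 * K) ^ D ≤ (2 * K) ^ (3 * D) := by
      calc 4 * K ^ 2 * (2 * K) ^ D = (2 * K) ^ (2 + D) := by rw [pow_add]; ring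
        _ ≤ (2 * K) ^ (3 * D) := pow_le_pow_right₀ (by linarith) (by omega)
    have h3 := numκ hD hκ0 hκ9 13000 (by norm_num)
    have h4 := expD (D := D) 650000 (49.5 * 13000) (by norm_num)
    exact mul_le_mul h2 (h3.trans h4) (Real.exp_pos _).le (by positivity)

theorem vcT2 {A B : Finset G} (hA : A.Nonempty) (hB : B.Nonempty) {K : ℝ} {D d : ℕ}
    (hD : 1 ≤ D) (hdD : 8 * d ≤ D)
    (hKA : ((A + B).card : ℝ) ≤ K * A.card) (hKB : ((A + B).card : ℝ) ≤ K * B.card)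
    (hVC : VCle A B d) : (B.card : ℝ) ≤ (2 * K) ^ D * (PG B (1 / (8 * K))).card := by
  have hK1 := one_le_K hA hB hKB
  have hK0 : 0 < K := by linarith
  have h1 := vcR hA hB hKA hKB hVC (δ := 1 / (8 * K)) (by positivity) (by
    rw [div_le_div_iff₀ (by positivity) (by norm_num)]; linarith)
  refine h1.trans (mul_le_mul_of_nonneg_right ?_ (Nat.cast_nonneg _))
  have h2 : 11 * K / (1 / (8 * K)) = 22 * (2 * K) ^ 2 := by field_simp; ring
  have h3 : 22 * (2 * K) ^ 2 ≤ (2 * K) ^ 7 := by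
    have h4 : (2 : ℝ) ^ 5 ≤ (2 * K) ^ 5 := pow_le_pow_left₀ (by norm_num) (by linarith) 5
    calc 22 * (2 * K) ^ 2 ≤ (2 * K) ^ 5 * (2 * K) ^ 2 := by
          apply mul_le_mul_of_nonneg_right _ (by positivity)
          norm_num at h4
          linarith
      _ = _ := by ring
  rw [h2]
  rcases Nat.eq_zero_or_pos d with h0 | hpos
  · subst h0
    rw [pow_zero, mul_one]
    calc K ≤ (2 * K) ^ 1 := by linarith
      _ ≤ _ := pow_le_pow_right₀ (by linarith) hD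
  · calc K * (22 * (2 * K) ^ 2) ^ d ≤ (2 * K) ^ 1 * ((2 * K) ^ 7) ^ d := by
          gcongr
          linarith
      _ = (2 * K) ^ (1 + 7 * d) := by rw [← pow_mul, ← pow_add]
      _ ≤ _ := pow_le_pow_right₀ (by linarith) (by omega)

omit [DecidableEq G] in
/-- a finite subgroup of a torsion-free group is trivial -/
theorem bot_of_tf (htf : ∀ (n : ℕ) (x : G), n ≠ 0 → n • x = 0 → x = 0) (H : AddSubgroup G)
    [Finite H] : H = ⊥ := by
  rw [AddSubgroup.eq_bot_iff_forall]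
  intro x hx
  have h1 : Nat.card H • (⟨x, hx⟩ : H) = 0 := card_nsmul_eq_zero'
  have h2 : Nat.card H • x = 0 := by
    have h3 := congrArg H.subtype h1
    rw [map_nsmul, map_zero] at h3
    exact h3
  exact htf _ x Nat.card_pos.ne' h2

end Pool.Agent.U546.PV
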