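import Pool.Agent.U546.PV.BM
import Pool.Agent.U546.PV.Fin

/-!
# The almost periods of small error generate a subgroup of rank at most `log₂ K + ε`
-/

set_option autoImplicit false

namespace Pool.Agent.U546.PV

open Finset
open scoped Pointwise

variable {G : Type*} [AddCommGroup G] [DecidableEq G]

theorem dst_sum (B : Finset G) {ι : Type*} (s : Finset ι) (f : ι → G) :
    dst B (∑ i ∈ s, f i) ≤ ∑ i ∈ s, dst B (f i) := by
  classical
  induction s using Finset.induction_on with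
  | empty => simp [dst_zero]
  | insert i s hi ih =>
    rw [sum_insert hi, sum_insert hi]
    exact (dst_add B _ _).trans (by omega)

/-- `r` independent almost periods of small error force `K ≥ 2^r (1 - o(1))` -/
theorem rankBound {A B : Finset G} (hA : A.Nonempty) (hB : B.Nonempty) {K : ℝ}
    (hKA : ((A + B).card : ℝ) ≤ K * A.card) (hKB : ((A + B).card : ℝ) ≤ K * B.card) {r : ℕ}
    (v : Fin r → G) (hind : ∀ c : Fin r → ℤ, ∑ i, c i • v i = 0 → c = 0) {τ : ℝ} (hτ0 : 0 ≤ τ)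
    (hv : ∀ i, (dst B (v i) : ℝ) ≤ τ * B.card) : 2 ^ r * (1 - 2 ^ r * (r * τ)) ≤ K := by
  classical
  have hAc : (0 : ℝ) < A.card := by exact_mod_cast hA.card_pos
  have hBc : (0 : ℝ) < B.card := by exact_mod_cast hB.card_pos
  obtain ⟨C, hC⟩ : ∃ C : Finset (Fin r → ℤ), C = Fintype.piFinset fun _ => ({0, 1} : Finset ℤ) :=
    ⟨_, rfl⟩
  have hCm : ∀ δ : Fin r → ℤ, δ ∈ C ↔ ∀ i, δ i = 0 ∨ δ i = 1 := by
    intro δ
    rw [hC, Fintype.mem_piFinset]
    simp
  have hCc : C.card = 2 ^ r := by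
    rw [hC, Fintype.card_piFinset]
    simp
  obtain ⟨B', hB'⟩ : ∃ B' : Finset G, B' = B.filter fun b => ∀ δ ∈ C, b + ∑ i, δ i • v i ∈ B :=
    ⟨_, rfl⟩
  have hd : ∀ δ ∈ C, (dst B (∑ i, δ i • v i) : ℝ) ≤ r * τ * B.card := by
    intro δ hδ
    have h1 : (dst B (∑ i, δ i • v i) : ℝ) ≤ ∑ i, (dst B (δ i • v i) : ℝ) := by
      exact_mod_cast dst_sum B univ fun i => δ i • v i
    have h2 : ∀ i ∈ (univ : Finset (Fin r)), (dst B (δ i • v i) : ℝ) ≤ τ * B.card := by
      intro i _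
      rcases (hCm δ).1 hδ i with h | h
      · rw [h, zero_smul, dst_zero]
        push_cast
        positivity
      · rw [h, one_smul]
        exact hv i
    calc (dst B (∑ i, δ i • v i) : ℝ) ≤ ∑ i, (dst B (δ i • v i) : ℝ) := h1
      _ ≤ ∑ _i : Fin r, τ * B.card := sum_le_sum h2
      _ = r * τ * B.card := by
          rw [sum_const, card_univ, Fintype.card_fin, nsmul_eq_mul]
          ring
  have hsub : B ⊆ B' ∪ C.biUnion fun δ => B.filter fun b => b + ∑ i, δ i • v i ∉ B := by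
    intro b hb
    rw [mem_union, mem_biUnion]
    by_cases h : ∀ δ ∈ C, b + ∑ i, δ i • v i ∈ B
    · left
      rw [hB', mem_filter]
      exact ⟨hb, h⟩
    · right
      push Not at h
      obtain ⟨δ, hδ, h⟩ := h
      exact ⟨δ, hδ, by rw [mem_filter]; exact ⟨hb, h⟩⟩
  have hBle : (B.card : ℝ) ≤ B'.card + 2 ^ r * (r * τ * B.card) := by
    have h1 := (card_le_card hsub).trans ((card_union_le _ _).trans
      (Nat.add_le_add_left card_biUnion_le _))
    have h2 : (B.card : ℝ) ≤ B'.card + ∑ δ ∈ C, (dst B (∑ i, δ i • v i) : ℝ) := by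
      exact_mod_cast h1
    refine h2.trans ?_
    have h3 : ∑ δ ∈ C, (dst B (∑ i, δ i • v i) : ℝ) ≤ ∑ _δ ∈ C, (r * τ * B.card : ℝ) :=
      sum_le_sum hd
    rw [sum_const, hCc, nsmul_eq_mul] at h3
    push_cast at h3
    linarith
  have hbm := bmMin v hind A B' (A + B) (by
    intro a ha b hb δ hδ
    rw [hB', mem_filter] at hb
    rw [add_assoc]
    exact add_mem_add ha (hb.2 δ ((hCm δ).2 hδ)))
  have hbm' : (2 : ℝ) ^ r * min (A.card : ℝ) B'.card ≤ (A + B).card := by exact_mod_cast hbm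
  have h2r : (0 : ℝ) < 2 ^ r := by positivity
  have hx : 0 ≤ (2 : ℝ) ^ r * (r * τ) := by positivity
  rcases le_total (A.card : ℝ) B'.card with h | h
  · rw [min_eq_left h] at hbm'
    have h1 : (2 : ℝ) ^ r * A.card ≤ K * A.card := hbm'.trans hKA
    have h2 : (2 : ℝ) ^ r ≤ K := le_of_mul_le_mul_right h1 hAc
    nlinarith
  · rw [min_eq_right h] at hbm'
    have h1 : (2 : ℝ) ^ r * ((1 - 2 ^ r * (r * τ)) * B.card) ≤ K * B.card := by
      refine le_trans (mul_le_mul_of_nonneg_left ?_ h2r.le) (hbm'.trans hKB)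
      linarith
    rw [← mul_assoc] at h1
    exact le_of_mul_le_mul_right h1 hBc

/-- independence over `ℤ` of the elements of a finite set -/
def Indep (b : Finset G) : Prop := ∀ c : G → ℤ, ∑ x ∈ b, c x • x = 0 → ∀ x ∈ b, c x = 0

theorem Indep.mono {b b' : Finset G} (h : Indep b) (hb : b' ⊆ b) : Indep b' := by
  intro c hc x hx
  have h1 := h (fun y => if y ∈ b' then c y else 0) (by
    rw [← hc, ← sum_subset hb]
    · exact sum_congr rfl fun y hy => by rw [if_pos hy]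
    · intro y _ hy
      rw [if_neg hy, zero_smul]) x (hb hx)
  rwa [if_pos hx] at h1

/-- **the rank bound** -/
theorem rank_le {A B : Finset G} (hA : A.Nonempty) (hB : B.Nonempty) {K : ℝ} (hK1 : 1 ≤ K)
    (hKA : ((A + B).card : ℝ) ≤ K * A.card) (hKB : ((A + B).card : ℝ) ≤ K * B.card) {ε : ℝ}
    (hε0 : 0 < ε) (hε1 : ε ≤ 1) {τ : ℝ} (hτ0 : 0 ≤ τ) (hτ : τ ≤ ε / (32 * K ^ 2)) (b : Finset G)
    (hb : Indep b) (hbB : ∀ x ∈ b, (dst B x : ℝ) ≤ τ * B.card) :
    (b.card : ℝ) ≤ Real.logb 2 K + ε := by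
  classical
  by_contra hcon
  push Not at hcon
  have hK0 : 0 < K := by linarith
  have hlog : 0 ≤ Real.logb 2 K := Real.logb_nonneg (by norm_num) hK1
  obtain ⟨r, hr⟩ : ∃ r : ℕ, r = ⌊Real.logb 2 K + ε⌋₊ + 1 := ⟨_, rfl⟩
  have hr1 : Real.logb 2 K + ε < r := by
    rw [hr]; push_cast; exact Nat.lt_floor_add_one _
  have hr2 : (r : ℝ) ≤ Real.logb 2 K + ε + 1 := by
    rw [hr]; push_cast
    have := Nat.floor_le (by linarith : 0 ≤ Real.logb 2 K + ε)
    linarith
  have hrb : r ≤ b.card := by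
    rw [hr]
    apply Nat.succ_le_of_lt
    rw [Nat.floor_lt (by linarith)]
    exact hcon
  obtain ⟨b', hb', hc'⟩ := exists_subset_card_eq hrb
  have hind' := hb.mono hb'
  let e : Fin r ≃ b' := (finCongr hc'.symm).trans b'.equivFin.symm
  obtain ⟨v, hv⟩ : ∃ v : Fin r → G, v = fun i => (e i : G) := ⟨_, rfl⟩
  have hvb : ∀ i, v i ∈ b' := fun i => by rw [hv]; exact (e i).2
  have hind : ∀ c : Fin r → ℤ, ∑ i, c i • v i = 0 → c = 0 := by
    intro c hc
    have h1 := hind' (fun x => if h : x ∈ b' then c (e.symm ⟨x, h⟩) else 0) (by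
      rw [← hc, ← sum_coe_sort b', ← Equiv.sum_comp e]
      refine sum_congr rfl fun i _ => ?_
      rw [dif_pos (e i).2, hv]
      simp)
    funext i
    have h2 := h1 (v i) (hvb i)
    rw [dif_pos (hvb i)] at h2
    have h3 : (⟨v i, hvb i⟩ : b') = e i := by
      apply Subtype.ext
      simp only [hv]
    rw [h3, Equiv.symm_apply_apply] at h2
    exact h2
  have h1 := rankBound hA hB hKA hKB v hind hτ0 fun i => hbB _ (hb' (hvb i))
  -- numerical contradiction
  have h2K : (2 : ℝ) ^ Real.logb 2 K = K := Real.rpow_logb (by norm_num) (by norm_num) hK0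
  have hr4 : (2 : ℝ) ^ r ≤ 4 * K := by
    have h2 : (2 : ℝ) ^ (r : ℝ) ≤ 2 ^ (Real.logb 2 K + 2) :=
      Real.rpow_le_rpow_of_exponent_le (by norm_num) (by linarith)
    rw [Real.rpow_natCast, Real.rpow_add (by norm_num), h2K] at h2
    norm_num at h2
    linarith
  have hr5 : K * 2 ^ ε < (2 : ℝ) ^ r := by
    have h2 : (2 : ℝ) ^ (Real.logb 2 K + ε) < 2 ^ (r : ℝ) :=
      Real.rpow_lt_rpow_of_exponent_lt (by norm_num) hr1
    rwa [Real.rpow_natCast, Real.rpow_add (by norm_num), h2K] at h2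
  have hr6 : (r : ℝ) ≤ 4 * K := by
    have : (r : ℝ) ≤ 2 ^ r := by exact_mod_cast (Nat.lt_two_pow_self).le
    linarith
  have hx : (2 : ℝ) ^ r * (r * τ) ≤ ε / 2 := by
    calc (2 : ℝ) ^ r * (r * τ) ≤ (4 * K) * ((4 * K) * (ε / (32 * K ^ 2))) := by gcongr
      _ = ε / 2 := by field_simp; ring
  have hε2 : (2 : ℝ) ^ (-ε) ≤ 1 - ε / 2 := by
    have h2 : (1 / 2 : ℝ) ^ ε ≤ 1 + ε * (-1 / 2) := by
      have h3 := rpow_one_add_le_one_add_mul_self (s := (-1 / 2 : ℝ)) (by norm_num) hε0.le hε1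
      have h4 : (1 : ℝ) + -1 / 2 = 1 / 2 := by norm_num
      rw [h4] at h3
      exact h3
    rw [Real.rpow_neg (by norm_num), ← Real.inv_rpow (by norm_num)]
    norm_num at h2 ⊢
    linarith
  have h3 : (2 : ℝ) ^ r * (2 : ℝ) ^ (-ε) ≤ K := by
    calc (2 : ℝ) ^ r * (2 : ℝ) ^ (-ε) ≤ 2 ^ r * (1 - 2 ^ r * (r * τ)) := by
          apply mul_le_mul_of_nonneg_left _ (by positivity)
          linarith
      _ ≤ K := h1
  have h4 : K < K := by
    calc K = K * 2 ^ ε * 2 ^ (-ε) := by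
          rw [mul_assoc, ← Real.rpow_add (by norm_num), add_neg_cancel, Real.rpow_zero, mul_one]
      _ < 2 ^ r * 2 ^ (-ε) := mul_lt_mul_of_pos_right hr5 (by positivity)
      _ ≤ K := h3
  exact lt_irrefl _ h4

/-- the elements with a nonzero multiple in the subgroup generated by `b` -/
def pure (b : Set G) : AddSubgroup G where
  carrier := {x | ∃ n : ℕ, n ≠ 0 ∧ n • x ∈ AddSubgroup.closure b}
  zero_mem' := ⟨1, one_ne_zero, by simp⟩
  add_mem' := by
    rintro x y ⟨n, hn, hx⟩ ⟨m, hm, hy⟩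
    refine ⟨n * m, mul_ne_zero hn hm, ?_⟩
    rw [smul_add]
    apply AddSubgroup.add_mem
    · rw [mul_comm, mul_smul]
      exact AddSubgroup.nsmul_mem _ hx m
    · rw [mul_smul]
      exact AddSubgroup.nsmul_mem _ hy n
  neg_mem' := by
    rintro x ⟨n, hn, hx⟩
    exact ⟨n, hn, by rw [smul_neg]; exact AddSubgroup.neg_mem _ hx⟩

/-- the almost periods lie in a pure subgroup of rank at most `log₂ K + ε` -/
theorem exists_pure {A B : Finset G} (hA : A.Nonempty) (hB : B.Nonempty) {K : ℝ} (hK1 : 1 ≤ K)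
    (hKA : ((A + B).card : ℝ) ≤ K * A.card) (hKB : ((A + B).card : ℝ) ≤ K * B.card) {ε : ℝ}
    (hε0 : 0 < ε) (hε1 : ε ≤ 1) {τ : ℝ} (hτ0 : 0 ≤ τ) (hτ : τ ≤ ε / (32 * K ^ 2)) :
    ∃ b : Finset G, (b.card : ℝ) ≤ Real.logb 2 K + ε ∧
      ∀ x ∈ PG B τ, x ∈ pure (b : Set G) := by
  classical
  obtain ⟨b, hb, hmax⟩ := exists_max_image ((PG B τ).powerset.filter Indep) card
    ⟨∅, by simp [Indep]⟩
  rw [mem_filter, mem_powerset] at hb
  obtain ⟨hbP, hbI⟩ := hb
  have hdst : ∀ x ∈ PG B τ, (dst B x : ℝ) ≤ τ * B.card := by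
    intro x hx
    unfold PG at hx
    exact (mem_filter.1 hx).2
  refine ⟨b, rank_le hA hB hK1 hKA hKB hε0 hε1 hτ0 hτ b hbI fun x hx => hdst x (hbP hx), ?_⟩
  intro x hx
  by_cases hxb : x ∈ b
  · exact ⟨1, one_ne_zero, by rw [one_smul]; exact AddSubgroup.subset_closure hxb⟩
  have hnI : ¬ Indep (insert x b) := by
    intro h
    have := hmax (insert x b) (by
      rw [mem_filter, mem_powerset]
      exact ⟨insert_subset hx hbP, h⟩)
    rw [card_insert_of_notMem hxb] at this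
    omega
  unfold Indep at hnI
  push Not at hnI
  obtain ⟨c, hc, y, hy, hcy⟩ := hnI
  rw [sum_insert hxb] at hc
  have hcx : c x ≠ 0 := by
    intro h0
    rw [h0, zero_smul, zero_add] at hc
    rcases mem_insert.1 hy with rfl | hyb
    · exact hcy h0
    · exact hcy (hbI c hc y hyb)
  have hmem : c x • x ∈ AddSubgroup.closure (b : Set G) := by
    rw [eq_neg_of_add_eq_zero_left hc]
    apply AddSubgroup.neg_mem
    apply AddSubgroup.sum_mem
    intro z hz
    exact AddSubgroup.zsmul_mem _ (AddSubgroup.subset_closure hz) _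
  refine ⟨(c x).natAbs, Int.natAbs_ne_zero.2 hcx, ?_⟩
  rcases Int.natAbs_eq (c x) with h | h
  · rw [← natCast_zsmul, ← h]
    exact hmem
  · rw [← natCast_zsmul]
    have h2 : ((c x).natAbs : ℤ) = -c x := by omega
    rw [h2, neg_smul]
    exact AddSubgroup.neg_mem _ hmem

end Pool.Agent.U546.PV
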