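import Pool.Agent.U546.PV.Rank

/-!
# Covering by translates of a progression inside a subgroup of rank at most `log₂ K + ε`
-/

set_option autoImplicit false

namespace Pool.Agent.U546.PV

open Finset H112
open scoped Pointwise

section general

variable {G : Type} [AddCommGroup G] [DecidableEq G]

/-- `gap_gen` with the generators in the subgroup generated by the sets -/
theorem gap_gen' (htf : ∀ (n : ℕ) (x : G), n ≠ 0 → n • x = 0 → x = 0)
    {K : ℝ} {A X S' : Finset G} (hA : A.Nonempty) (hX : X.Nonempty)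
    (hK : ((X + X).card : ℝ) ≤ K * X.card) (hK1 : 1 ≤ K) {κ : ℝ} (hκ : κ = Real.log (2 * K)) {W : ℝ}
    (hcov : ∀ a ∈ A, ∃ s ∈ S', a - s ∈ X) (hW : (X.card : ℝ) ≤ W * A.card) (hW1 : 1 ≤ W)
    (Λ : AddSubgroup G) (hAΛ : ∀ a ∈ A, a ∈ Λ) (hXΛ : ∀ a ∈ X, a ∈ Λ) (hSΛ : ∀ a ∈ S', a ∈ Λ) :
    ∃ (k : ℕ) (v : Fin k → G) (L : Fin k → ℕ) (T : Finset G),
      (k : ℝ) ≤ 300 * κ ∧ (∀ i, v i ∈ Λ) ∧
      (∀ a b : Fin k → ℤ, (∀ i, |a i| ≤ L i) → (∀ i, |b i| ≤ L i) →
        ∑ i, a i • v i = ∑ i, b i • v i → a = b) ∧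
      ∏ i, (2 * L i + 1) ≤ A.card ∧
      (T.card : ℝ) ≤ S'.card * W * Real.exp (17000 * κ * (1 + Real.log (1 + κ))) ∧
      ∀ a ∈ A, ∃ t ∈ T, ∃ c : Fin k → ℤ, (∀ i, |c i| ≤ L i) ∧ a = t + ∑ i, c i • v i := by
  classical
  obtain ⟨A', rfl⟩ := exists_model A Λ hAΛ
  obtain ⟨X', rfl⟩ := exists_model X Λ hXΛ
  obtain ⟨S'', rfl⟩ := exists_model S' Λ hSΛ
  have hinj : Function.Injective Λ.subtype := Λ.subtype_injective
  have hcA : (A'.image Λ.subtype).card = A'.card := card_image_of_injective _ hinj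
  have hcX : (X'.image Λ.subtype).card = X'.card := card_image_of_injective _ hinj
  have hcS : (S''.image Λ.subtype).card = S''.card := card_image_of_injective _ hinj
  have hcXX : (X'.image Λ.subtype + X'.image Λ.subtype).card = (X' + X').card := by
    rw [← image_add, card_image_of_injective _ hinj]
  rw [hcXX, hcX] at hK
  rw [hcX, hcA] at hW
  have htf' : ∀ (n : ℕ) (x : Λ), n ≠ 0 → n • x = 0 → x = 0 := by
    intro n x hn hx
    apply hinj
    rw [map_zero]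
    apply htf n _ hn
    rw [← map_nsmul, hx, map_zero]
  obtain ⟨k, v, L, T, hk, hprop, hvol, hT, hc⟩ := gap_gen (G := Λ) htf' (A := A') (X := X') (S' := S'')
    (image_nonempty.1 hA) (image_nonempty.1 hX) hK hK1 hκ (by
      intro a ha
      obtain ⟨s, hs, hx⟩ := hcov _ (mem_image_of_mem _ ha)
      obtain ⟨s', hs', rfl⟩ := mem_image.1 hs
      refine ⟨s', hs', ?_⟩
      rw [← map_sub] at hx
      obtain ⟨x', hx', he⟩ := mem_image.1 hx
      rwa [← hinj he]) hW hW1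
  have hsum : ∀ c : Fin k → ℤ, ∑ i, c i • Λ.subtype (v i) = Λ.subtype (∑ i, c i • v i) := by
    intro c
    rw [map_sum]
    simp only [map_zsmul]
  refine ⟨k, fun i => Λ.subtype (v i), L, T.image Λ.subtype, hk, fun i => (v i).2, ?_, ?_, ?_, ?_⟩
  · intro a b ha hb hab
    rw [hsum, hsum] at hab
    exact hprop a b ha hb (hinj hab)
  · rw [hcA]; exact hvol
  · rw [hcS]
    refine le_trans ?_ hT
    exact_mod_cast card_image_le
  · intro a ha
    obtain ⟨a', ha', rfl⟩ := mem_image.1 ha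
    obtain ⟨t, ht, c, hc', e⟩ := hc a' ha'
    refine ⟨Λ.subtype t, mem_image_of_mem _ ht, c, hc', ?_⟩
    rw [hsum, e, map_add]

/-- covering a set of small doubling by a progression of prescribed volume -/
theorem gapX (htf : ∀ (n : ℕ) (x : G), n ≠ 0 → n • x = 0 → x = 0)
    {K : ℝ} {X : Finset G} (hX : X.Nonempty)
    (hK : ((X + X).card : ℝ) ≤ K * X.card) (hK1 : 1 ≤ K) {κ : ℝ} (hκ : κ = Real.log (2 * K))
    {n : ℕ} (hn : 1 ≤ n) {W : ℝ} (hW : (X.card : ℝ) ≤ W * n) (hW1 : 1 ≤ W) (Λ : AddSubgroup G)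
    (hXΛ : ∀ a ∈ X, a ∈ Λ) :
    ∃ (k : ℕ) (v : Fin k → G) (L : Fin k → ℕ) (T : Finset G),
      (k : ℝ) ≤ 300 * κ ∧ (∀ i, v i ∈ Λ) ∧
      (∀ a b : Fin k → ℤ, (∀ i, |a i| ≤ L i) → (∀ i, |b i| ≤ L i) →
        ∑ i, a i • v i = ∑ i, b i • v i → a = b) ∧
      ∏ i, (2 * L i + 1) ≤ n ∧
      (T.card : ℝ) ≤ K * W ^ 2 * 3 ^ k * Real.exp (17000 * κ * (1 + Real.log (1 + κ))) ∧
      ∀ a ∈ X, ∃ t ∈ T, ∃ c : Fin k → ℤ, (∀ i, |c i| ≤ L i) ∧ a = t + ∑ i, c i • v i := by
  classical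
  have hXc : 0 < X.card := hX.card_pos
  obtain ⟨A, hAX, hAc⟩ := exists_subset_card_eq (min_le_right n X.card)
  have hAc0 : 0 < A.card := by rw [hAc]; exact lt_min (by omega) hXc
  have hA : A.Nonempty := card_pos.1 hAc0
  have hAn : A.card ≤ n := by rw [hAc]; exact min_le_left _ _
  have hWA : (X.card : ℝ) ≤ W * A.card := by
    rw [hAc]
    rcases le_total n X.card with h | h
    · rw [min_eq_left h]; exact hW
    · rw [min_eq_right h]
      have : (0 : ℝ) ≤ X.card := Nat.cast_nonneg _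
      nlinarith
  obtain ⟨k, v, L, T₁, hk, hvΛ, hprop, hvol, hT₁, hc⟩ := gap_gen' htf (S' := {0}) hA hX hK hK1 hκ
    (fun a ha => ⟨0, mem_singleton_self 0, by rw [sub_zero]; exact hAX ha⟩) hWA hW1 Λ
    (fun a ha => hXΛ a (hAX ha)) hXΛ (by
      intro a ha
      rw [mem_singleton] at ha
      rw [ha]
      exact Λ.zero_mem)
  rw [card_singleton, Nat.cast_one, one_mul] at hT₁
  obtain ⟨φ, hφ⟩ : ∃ φ : (Fin k → ℤ) → G, φ = fun c => ∑ i, c i • v i := ⟨_, rfl⟩
  have hadd : ∀ c d, φ (c + d) = φ c + φ d := by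
    intro c d
    rw [hφ]
    simp only [Pi.add_apply, add_smul, sum_add_distrib]
  -- the popular translate
  have hT₁0 : T₁.Nonempty := by
    obtain ⟨a, ha⟩ := hA
    obtain ⟨t, ht, -⟩ := hc a ha
    exact ⟨t, ht⟩
  obtain ⟨F, hF⟩ : ∃ F : G → Finset G, F = fun t =>
      A.filter fun a => ∃ c : Fin k → ℤ, (∀ i, |c i| ≤ L i) ∧ a = t + φ c := ⟨_, rfl⟩
  obtain ⟨t, ht, htc⟩ : ∃ t ∈ T₁, A.card ≤ T₁.card * (F t).card := by
    by_contra hcon
    push Not at hcon
    have h1 : A ⊆ T₁.biUnion F := by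
      intro a ha
      obtain ⟨t, ht, c, hc1, hc2⟩ := hc a ha
      rw [mem_biUnion]
      refine ⟨t, ht, ?_⟩
      rw [hF]
      simp only [mem_filter]
      exact ⟨ha, c, hc1, by rw [hφ]; exact hc2⟩
    have h2 := (card_le_card h1).trans card_biUnion_le
    have h3 : ∑ t ∈ T₁, T₁.card * (F t).card < ∑ _t ∈ T₁, A.card :=
      sum_lt_sum_of_nonempty hT₁0 hcon
    rw [← mul_sum, sum_const, smul_eq_mul] at h3
    have h4 : T₁.card * A.card ≤ T₁.card * ∑ t ∈ T₁, (F t).card := Nat.mul_le_mul_left _ h2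
    omega
  have hFX : F t ⊆ X := by
    rw [hF]
    exact (filter_subset _ _).trans hAX
  have hF0 : (F t).Nonempty := by
    rw [← card_pos]
    by_contra hcon
    have : (F t).card = 0 := by omega
    rw [this, mul_zero] at htc
    omega
  have hFc : (0 : ℝ) < (F t).card := by exact_mod_cast hF0.card_pos
  have hcardK : ((X + F t).card : ℝ) ≤ (K * W * T₁.card) * (F t).card := by
    have h1 : ((X + F t).card : ℝ) ≤ (X + X).card := by
      exact_mod_cast card_le_card (add_subset_add_left hFX)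
    have h2 : (A.card : ℝ) ≤ T₁.card * (F t).card := by exact_mod_cast htc
    calc ((X + F t).card : ℝ) ≤ (X + X).card := h1
      _ ≤ K * X.card := hK
      _ ≤ K * (W * A.card) := by gcongr
      _ ≤ K * (W * (T₁.card * (F t).card)) := by gcongr
      _ = _ := by ring
  obtain ⟨Y, -, hYc, hYcov⟩ := ruzsa_covering_add hF0 hcardK
  obtain ⟨E, hE⟩ : ∃ E : Finset (Fin k → ℤ), E = Fintype.piFinset fun _ => ({-1, 0, 1} : Finset ℤ) :=
    ⟨_, rfl⟩
  have hEc : E.card = 3 ^ k := by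
    rw [hE, Fintype.card_piFinset]
    simp
  refine ⟨k, v, L, Y + E.image (fun s => φ fun i => s i * L i), hk, hvΛ, hprop, hvol.trans hAn, ?_, ?_⟩
  · have h1 : ((Y + E.image (fun s => φ fun i => s i * L i)).card : ℝ) ≤ Y.card * 3 ^ k := by
      have h2 : (Y + E.image (fun s => φ fun i => s i * L i)).card ≤ Y.card * 3 ^ k := by
        refine card_add_le.trans (Nat.mul_le_mul_left _ ?_)
        rw [← hEc]
        exact card_image_le
      exact_mod_cast h2
    have hK0 : 0 ≤ K := by linarith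
    have hW0 : 0 ≤ W := by linarith
    calc ((Y + E.image (fun s => φ fun i => s i * L i)).card : ℝ) ≤ Y.card * 3 ^ k := h1
      _ ≤ (K * W * T₁.card) * 3 ^ k := by gcongr
      _ ≤ (K * W * (W * Real.exp (17000 * κ * (1 + Real.log (1 + κ))))) * 3 ^ k := by gcongr
      _ = _ := by ring
  · intro x hx
    obtain ⟨y, hy, z, hz, rfl⟩ := mem_add.1 (hYcov hx)
    obtain ⟨p, hp, q, hq, rfl⟩ := mem_sub.1 hz
    rw [hF] at hp hq
    simp only [mem_filter] at hp hq
    obtain ⟨-, c, hc1, hc2⟩ := hp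
    obtain ⟨-, d, hd1, hd2⟩ := hq
    obtain ⟨s, hs⟩ : ∃ s : Fin k → ℤ, s = fun i =>
        if (L i : ℤ) < c i - d i then 1 else if c i - d i < -(L i : ℤ) then -1 else 0 := ⟨_, rfl⟩
    refine ⟨y + φ (fun i => s i * L i), add_mem_add hy (mem_image_of_mem _ ?_),
      fun i => c i - d i - s i * L i, ?_, ?_⟩
    · rw [hE, Fintype.mem_piFinset]
      intro i
      rw [hs]
      simp only
      split_ifs <;> simp
    · intro i
      have h1 := abs_le.1 (hc1 i)
      have h2 := abs_le.1 (hd1 i)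
      rw [hs]
      simp only
      rw [abs_le]
      split_ifs with h3 h4
      · constructor <;> linarith
      · constructor <;> linarith
      · push Not at h3 h4
        constructor <;> linarith
    · have h1 : φ (fun i => s i * L i) + ∑ i, (c i - d i - s i * L i) • v i = φ c - φ d := by
        have h2 : ∑ i, (c i - d i - s i * L i) • v i = φ (c - d - fun i => s i * L i) := by
          rw [hφ]
          rfl
        rw [h2, ← hadd]
        have h3 : (fun i => s i * (L i : ℤ)) + (c - d - fun i => s i * L i) = c - d := by abel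
        rw [h3]
        have h4 : φ c = φ (c - d) + φ d := by rw [← hadd, sub_add_cancel]
        rw [h4]
        abel
      rw [add_assoc, h1, hc2, hd2]
      abel

/-- a scale below `(1/2)^q` at which the almost periods have small doubling -/
theorem scale' {B : Finset G} (hB : B.Nonempty) (q J : ℕ) (hq : 1 ≤ q) (hJ : 1 ≤ J) (M : ℝ)
    (hM : 1 ≤ M) (h : (B.card : ℝ) ≤ M * (PG B ((1 / 2) ^ (q + J))).card) :
    ∃ X : Finset G, X.Nonempty ∧ -X = X ∧ X + X ⊆ PG B ((1 / 2) ^ q) ∧ X ⊆ PG B (1 / 2) ∧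
      ((X + X).card : ℝ) ≤ Real.exp (Real.log (2 * M) / J) * X.card ∧
      (B.card : ℝ) ≤ M * X.card := by
  have hJ0 : (0 : ℝ) < J := by exact_mod_cast hJ
  obtain ⟨ρ, hρ⟩ : ∃ ρ : ℝ, ρ = Real.exp (Real.log (2 * M) / J) := ⟨_, rfl⟩
  have hρ1 : 1 ≤ ρ := by
    rw [hρ]
    apply Real.one_le_exp
    have : 0 ≤ Real.log (2 * M) := Real.log_nonneg (by linarith)
    positivity
  have hρJ : ρ ^ J = 2 * M := by
    rw [hρ, ← Real.exp_nat_mul, mul_div_cancel₀ _ hJ0.ne', Real.exp_log (by linarith)]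
  obtain ⟨τ, hτ⟩ : ∃ τ : ℕ → ℝ, τ = fun j => (1 / 2 : ℝ) ^ (q + J - j) := ⟨_, rfl⟩
  have hτ0 : ∀ j, 0 < τ j := by
    intro j; rw [hτ]; positivity
  have hτh : ∀ j, j ≤ J → τ j ≤ 1 / 2 := by
    intro j hj
    rw [hτ]
    have h1 : (1 / 2 : ℝ) ^ (q + J - j) ≤ (1 / 2 : ℝ) ^ 1 :=
      pow_le_pow_of_le_one (by norm_num) (by norm_num) (by omega)
    simpa using h1
  have hτs : ∀ j, j < J → τ j + τ j = τ (j + 1) := by
    intro j hj
    rw [hτ]
    simp only
    have : q + J - j = (q + J - (j + 1)) + 1 := by omega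
    rw [this, pow_succ]
    ring
  have hmono : ∀ j, j < J → PG B (τ j) ⊆ PG B (τ (j + 1)) := by
    intro j hj
    apply mono_PG
    have := hτs j hj
    have := hτ0 j
    linarith
  have hmono' : ∀ j, j ≤ J → ∀ i, j ≤ i → i ≤ J → PG B (τ j) ⊆ PG B (τ i) := by
    intro j hj i hji
    induction i, hji using Nat.le_induction with
    | base => intro _; exact Subset.refl _
    | succ i hi ih => intro hiJ; exact (ih (by omega)).trans (hmono i (by omega))
  have hτJ : τ J = (1 / 2) ^ q := by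
    rw [hτ]
    simp
  have hτ00 : τ 0 = (1 / 2) ^ (q + J) := by
    rw [hτ]
    simp
  -- the pigeonhole
  obtain ⟨j, hj, h1⟩ : ∃ j, j < J ∧ ((PG B (τ (j + 1))).card : ℝ) ≤ ρ * (PG B (τ j)).card := by
    by_contra hcon
    push Not at hcon
    have key : ∀ j, j + 1 ≤ J → ρ ^ (j + 1) * (PG B (τ 0)).card < (PG B (τ (j + 1))).card := by
      intro j
      induction j with
      | zero =>
        intro h1
        have := hcon 0 (by omega)
        simpa using this
      | succ j ih =>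
        intro h1
        have h2 := ih (by omega)
        have h3 := hcon (j + 1) (by omega)
        calc ρ ^ (j + 1 + 1) * ((PG B (τ 0)).card : ℝ) = ρ * (ρ ^ (j + 1) * (PG B (τ 0)).card) := by ring
          _ < ρ * (PG B (τ (j + 1))).card := mul_lt_mul_of_pos_left h2 (by linarith)
          _ < _ := h3
    obtain ⟨k, rfl⟩ : ∃ k, J = k + 1 := ⟨J - 1, by omega⟩
    have h2 := key k le_rfl
    rw [hρJ, hτ00] at h2
    have h3 : ((PG B (τ (k + 1))).card : ℝ) ≤ 2 * B.card := by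
      exact_mod_cast card_PG hB (hτh (k + 1) le_rfl)
    linarith
  have hXX : PG B (τ j) + PG B (τ j) ⊆ PG B (τ (j + 1)) := by
    rw [← hτs j hj]
    have := hτh (j + 1) (by omega)
    exact add_PG hB (hτ0 j).le (hτ0 j).le (by rw [hτs j hj]; linarith)
  refine ⟨PG B (τ j), ⟨0, zero_mem_PG hB (hτ0 j).le ?_⟩, neg_PG hB ?_, ?_, ?_, ?_, ?_⟩
  · have := hτh j (by omega); linarith
  · have := hτh j (by omega); linarith
  · rw [← hτJ]
    exact hXX.trans (hmono' (j + 1) (by omega) J (by omega) le_rfl)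
  · exact mono_PG (hτh j (by omega))
  · rw [← hρ]
    refine le_trans ?_ h1
    exact_mod_cast card_le_card hXX
  · refine h.trans (mul_le_mul_of_nonneg_left ?_ (by linarith))
    rw [← hτ00]
    exact_mod_cast card_le_card (hmono' 0 (by omega) j (by omega) (by omega))

theorem input' {A B : Finset G} (hA : A.Nonempty) (hB : B.Nonempty) {K : ℝ} (hK1 : 1 ≤ K)
    (hKA : ((A + B).card : ℝ) ≤ K * A.card) (hKB : ((A + B).card : ℝ) ≤ K * B.card)
    (q J : ℕ) (hq : 1 ≤ q) (hJ : 1 ≤ J) (M : ℝ) (hM : 1 ≤ M)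
    (h : (B.card : ℝ) ≤ M * (PG B ((1 / 2) ^ (q + J))).card) :
    ∃ X S' : Finset G, X.Nonempty ∧ X ⊆ PG B ((1 / 2) ^ q) ∧
      ((X + X).card : ℝ) ≤ Real.exp (4 * (Real.log (2 * M) / J)) * X.card ∧
      (∀ a ∈ A, ∃ s ∈ S', a - s ∈ X) ∧ (X.card : ℝ) ≤ (2 * K) * A.card ∧
      (S'.card : ℝ) ≤ 2 * K * M := by
  obtain ⟨X, hX0, hXs, hXX, hXh, hXd, hXM⟩ := scale' hB q J hq hJ M hM h
  have hXc : (0 : ℝ) < X.card := by exact_mod_cast hX0.card_pos
  have hXsub : X - X = X + X := by rw [sub_eq_add_neg, hXs]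
  have h1 : ((A + X).card : ℝ) ≤ (2 * K * M) * X.card := by
    have h2 : ((A + X).card : ℝ) ≤ 2 * (A + B).card := by
      have h3 := card_le_card (add_subset_add_left (s := A) hXh)
      have h4 := card_add_PG (A := A) hB (τ := 1 / 2) le_rfl
      exact_mod_cast h3.trans h4
    calc ((A + X).card : ℝ) ≤ 2 * (A + B).card := h2
      _ ≤ 2 * (K * B.card) := by linarith
      _ ≤ 2 * (K * (M * X.card)) := by gcongr
      _ = _ := by ring
  obtain ⟨F, -, hF, hcov⟩ := ruzsa_covering_add hX0 h1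
  refine ⟨X + X, F, hX0.add hX0, hXX, ?_, ?_, ?_, hF⟩
  · have h2 := pluennecke_ruzsa_inequality_nsmul_add hX0 X 4
    have h3 : X + X + (X + X) = 4 • X := by
      have : (4 : ℕ) • X = (2 : ℕ) • X + (2 : ℕ) • X := by rw [← add_nsmul]
      rw [this, two_nsmul]
    have h4 : ((4 • X).card : ℝ) ≤ ((X + X).card / X.card : ℝ) ^ 4 * X.card := by
      have := (NNRat.cast_le (K := ℝ)).2 h2
      push_cast at this
      exact this
    have h5 : ((X + X).card / X.card : ℝ) ≤ Real.exp (Real.log (2 * M) / J) := by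
      rw [div_le_iff₀ hXc]
      exact hXd
    have h6 : ((X.card : ℕ) : ℝ) ≤ (X + X).card := by
      exact_mod_cast card_le_card_add_self
    rw [h3]
    calc ((4 • X).card : ℝ) ≤ ((X + X).card / X.card : ℝ) ^ 4 * X.card := h4
      _ ≤ (Real.exp (Real.log (2 * M) / J)) ^ 4 * (X + X).card := by gcongr
      _ = _ := by
          rw [← Real.exp_nat_mul]
          norm_num
  · intro a ha
    have h2 := hcov ha
    obtain ⟨s, hs, x, hx, rfl⟩ := mem_add.1 h2
    refine ⟨s, hs, ?_⟩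
    rw [add_sub_cancel_left, ← hXsub]
    exact hx
  · have hq2 : (1 / 2 : ℝ) ^ q ≤ 1 / 2 := by
      have h1 : (1 / 2 : ℝ) ^ q ≤ (1 / 2 : ℝ) ^ 1 :=
        pow_le_pow_of_le_one (by norm_num) (by norm_num) hq
      simpa using h1
    have h2 : ((X + X).card : ℝ) ≤ 2 * B.card := by
      exact_mod_cast (card_le_card hXX).trans (card_PG hB hq2)
    have h3 : (B.card : ℝ) ≤ (A + B).card := by
      exact_mod_cast card_le_card_add_left hA
    linarith

/-- the choice of the top scale -/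
theorem exists_q {R : ℝ} (hR : 2 ≤ R) : ∃ q : ℕ, 1 ≤ q ∧ 8 * R ^ 2 ≤ (2 : ℝ) ^ q ∧
    (2 : ℝ) ^ q ≤ 16 * R ^ 2 := by
  obtain ⟨n, hn1, hn2⟩ := exists_nat_pow_near (show (1 : ℝ) ≤ 8 * R ^ 2 by nlinarith) (one_lt_two)
  refine ⟨n + 1, by omega, hn2.le, ?_⟩
  rw [pow_succ]
  linarith

/-- **covering by translates of a proper progression inside a subgroup of rank at most
`log₂ K + ε`** -/
theorem T1 (htf : ∀ (n : ℕ) (x : G), n ≠ 0 → n • x = 0 → x = 0)
    {A B : Finset G} (hA : A.Nonempty) (hB : B.Nonempty) {K : ℝ} (hK1 : 1 ≤ K)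
    (hKA : ((A + B).card : ℝ) ≤ K * A.card) (hKB : ((A + B).card : ℝ) ≤ K * B.card)
    {ε : ℝ} (hε0 : 0 < ε) (hε1 : ε ≤ 1) {D : ℕ} (hD : 1 ≤ D)
    (hper : (B.card : ℝ) ≤ (2 * K / ε) ^ D * (PG B (1 / (32 * (2 * K / ε) ^ 3))).card) :
    ∃ (k : ℕ) (v : Fin k → G) (L : Fin k → ℕ) (b T : Finset G),
      (b.card : ℝ) ≤ Real.logb 2 K + ε ∧ (∀ i, v i ∈ pure (b : Set G)) ∧ k ≤ 2700 * D ∧
      (∀ a b : Fin k → ℤ, (∀ i, |a i| ≤ L i) → (∀ i, |b i| ≤ L i) →
        ∑ i, a i • v i = ∑ i, b i • v i → a = b) ∧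
      ∏ i, (2 * L i + 1) ≤ A.card ∧
      (T.card : ℝ) ≤ (2 * K / ε) ^ (4 * D) * (1 + (D : ℝ)) ^ (850000 * D) ∧
      ∀ a ∈ A, ∃ t ∈ T, ∃ c : Fin k → ℤ, (∀ i, |c i| ≤ L i) ∧ a = t + ∑ i, c i • v i := by
  have hD1 : (1 : ℝ) ≤ D := by exact_mod_cast hD
  have hlog2 := Real.log_two_gt_d9
  have hlog2' := Real.log_two_lt_d9
  have hK0 : 0 < K := by linarith
  obtain ⟨R, hR⟩ : ∃ R : ℝ, R = 2 * K / ε := ⟨_, rfl⟩
  rw [← hR] at hper ⊢
  have hRK : 2 * K ≤ R := by
    rw [hR, le_div_iff₀ hε0]; nlinarith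
  have hR2 : 2 ≤ R := by linarith
  have hR0 : 0 < R := by linarith
  obtain ⟨J, hJ⟩ : ∃ J : ℕ, J = ⌈Real.log R⌉₊ := ⟨_, rfl⟩
  obtain ⟨hJ1, hM1, hκ1, hJR⟩ := num hR2 hD hJ
  obtain ⟨q, hq1, hq2, hq3⟩ := exists_q hR2
  have hper' : (B.card : ℝ) ≤ R ^ D * (PG B ((1 / 2) ^ (q + J))).card := by
    refine hper.trans (mul_le_mul_of_nonneg_left ?_ (by positivity))
    have h1 : 1 / (32 * R ^ 3) ≤ (1 / 2 : ℝ) ^ (q + J) := by
      rw [one_div_pow]
      apply one_div_le_one_div_of_le (by positivity)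
      rw [pow_add]
      calc (2 : ℝ) ^ q * 2 ^ J ≤ (16 * R ^ 2) * (2 * R) := by gcongr
        _ = 32 * R ^ 3 := by ring
    exact_mod_cast card_le_card (mono_PG h1)
  obtain ⟨X, S', hX0, hXP, hXd, hcov, hXW, hS'⟩ :=
    input' hA hB hK1 hKA hKB q J hq1 hJ1 _ hM1 hper'
  have hτ : (1 / 2 : ℝ) ^ q ≤ ε / (32 * K ^ 2) := by
    rw [one_div_pow]
    calc 1 / (2 : ℝ) ^ q ≤ 1 / (8 * R ^ 2) := one_div_le_one_div_of_le (by positivity) hq2
      _ = ε ^ 2 / (32 * K ^ 2) := by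
          rw [hR]
          field_simp
          ring
      _ ≤ ε / (32 * K ^ 2) := by
          apply div_le_div_of_nonneg_right _ (by positivity)
          nlinarith
  obtain ⟨b, hb, hbp⟩ := exists_pure hA hB hK1 hKA hKB hε0 hε1 (by positivity) hτ
  obtain ⟨κ, hκ⟩ : ∃ κ : ℝ, κ = Real.log 2 + 4 * (Real.log (2 * R ^ D) / J) := ⟨_, rfl⟩
  have hκ9 : κ ≤ 9 * D := by rw [hκ]; linarith
  have hlogM : 0 ≤ Real.log (2 * R ^ D) / J := by
    have h1 : 0 ≤ Real.log (2 * R ^ D) := Real.log_nonneg (by linarith)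
    positivity
  have hκ0 : 0 ≤ κ := by
    rw [hκ]
    linarith
  have hκ' : κ = Real.log (2 * Real.exp (4 * (Real.log (2 * R ^ D) / J))) := by
    rw [Real.log_mul (by norm_num) (Real.exp_pos _).ne', Real.log_exp, hκ]
  have hρ1 : 1 ≤ Real.exp (4 * (Real.log (2 * R ^ D) / J)) := Real.one_le_exp (by positivity)
  obtain ⟨k, v, L, T₂, hk, hv, hprop, hvol, hT₂, hc⟩ := gapX htf hX0 hXd hρ1 hκ' hA.card_pos hXW
    (by linarith) (pure (b : Set G)) (fun x hx => hbp x (hXP hx))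
  have hkD : k ≤ 2700 * D := by
    have h1 : (k : ℝ) ≤ 2700 * D := by linarith
    exact_mod_cast h1
  refine ⟨k, v, L, b, S' + T₂, hb, hv, hkD, hprop, hvol, ?_, ?_⟩
  · have h1 : ((S' + T₂).card : ℝ) ≤ S'.card * T₂.card := by exact_mod_cast card_add_le
    have hlogD : Real.log 2 ≤ Real.log (1 + D) := Real.log_le_log (by norm_num) (by linarith)
    have h2 : Real.exp (4 * (Real.log (2 * R ^ D) / J)) ≤ Real.exp (12 * D * Real.log (1 + D)) := by
      apply Real.exp_le_exp.2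
      have h3 : (8 : ℝ) * D ≤ 12 * D * Real.log (1 + D) := by nlinarith
      linarith
    have h3 : (3 : ℝ) ^ k ≤ Real.exp (4320 * D * Real.log (1 + D)) := by
      have h4 : Real.log 3 ≤ 8 / 5 * Real.log 2 := by
        have h5 : Real.log ((3 : ℝ) ^ 5) ≤ Real.log ((2 : ℝ) ^ 8) :=
          Real.log_le_log (by norm_num) (by norm_num)
        rw [Real.log_pow, Real.log_pow] at h5
        push_cast at h5
        linarith
      have h6 : (3 : ℝ) ^ k = Real.exp (k * Real.log 3) := by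
        rw [Real.exp_nat_mul, Real.exp_log (by norm_num)]
      rw [h6]
      apply Real.exp_le_exp.2
      have h7 : (k : ℝ) ≤ 2700 * D := by linarith
      have h8 : 0 ≤ Real.log 3 := Real.log_nonneg (by norm_num)
      calc (k : ℝ) * Real.log 3 ≤ (2700 * D) * (8 / 5 * Real.log (1 + D)) := by
            apply mul_le_mul h7 (by linarith) h8 (by positivity)
        _ = 4320 * D * Real.log (1 + D) := by ring
    have h4 := numκ hD hκ0 hκ9 17000 (by norm_num)
    have h5 : (2 * K) ^ 3 * R ^ D ≤ R ^ (4 * D) := by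
      calc (2 * K) ^ 3 * R ^ D ≤ R ^ 3 * R ^ D := by gcongr
        _ = R ^ (3 + D) := by rw [pow_add]
        _ ≤ R ^ (4 * D) := pow_le_pow_right₀ (by linarith) (by omega)
    calc ((S' + T₂).card : ℝ) ≤ S'.card * T₂.card := h1
      _ ≤ (2 * K * R ^ D) * (Real.exp (4 * (Real.log (2 * R ^ D) / J)) * (2 * K) ^ 2 * 3 ^ k *
            Real.exp (17000 * κ * (1 + Real.log (1 + κ)))) := by gcongr
      _ ≤ (2 * K * R ^ D) * (Real.exp (12 * D * Real.log (1 + D)) * (2 * K) ^ 2 *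
            Real.exp (4320 * D * Real.log (1 + D)) *
            Real.exp (49.5 * 17000 * D * Real.log (1 + D))) := by gcongr
      _ = ((2 * K) ^ 3 * R ^ D) * Real.exp (12 * D * Real.log (1 + D) +
            4320 * D * Real.log (1 + D) + 49.5 * 17000 * D * Real.log (1 + D)) := by
          rw [Real.exp_add, Real.exp_add]; ring
      _ = ((2 * K) ^ 3 * R ^ D) * Real.exp ((12 + 4320 + 49.5 * 17000) * D * Real.log (1 + D)) := by
          congr 2; ring
      _ ≤ R ^ (4 * D) * (1 + (D : ℝ)) ^ (850000 * D) := by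
          apply mul_le_mul h5 _ (Real.exp_pos _).le (by positivity)
          exact expD 850000 _ (by norm_num)
  · intro a ha
    obtain ⟨s, hs, hx⟩ := hcov a ha
    obtain ⟨t, ht, c, hc1, hc2⟩ := hc _ hx
    refine ⟨s + t, add_mem_add hs ht, c, hc1, ?_⟩
    rw [add_assoc, ← hc2]
    abel

end general

theorem vcT1 {G : Type} [AddCommGroup G] [DecidableEq G] {A B : Finset G} (hA : A.Nonempty)
    (hB : B.Nonempty) {K : ℝ} {ε : ℝ} (hε0 : 0 < ε) (hε1 : ε ≤ 1) {D d : ℕ}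
    (hD : 1 ≤ D) (hdD : 13 * d ≤ D)
    (hKA : ((A + B).card : ℝ) ≤ K * A.card) (hKB : ((A + B).card : ℝ) ≤ K * B.card)
    (hVC : VCle A B d) :
    (B.card : ℝ) ≤ (2 * K / ε) ^ D * (PG B (1 / (32 * (2 * K / ε) ^ 3))).card := by
  have hK1 := one_le_K hA hB hKB
  have hK0 : 0 < K := by linarith
  obtain ⟨R, hR⟩ : ∃ R : ℝ, R = 2 * K / ε := ⟨_, rfl⟩
  rw [← hR]
  have hRK : 2 * K ≤ R := by
    rw [hR, le_div_iff₀ hε0]; nlinarith
  have hR2 : 2 ≤ R := by linarith
  have hR0 : 0 < R := by linarith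
  have hR3 : 8 ≤ R ^ 3 := by
    calc (8 : ℝ) = 2 ^ 3 := by norm_num
      _ ≤ R ^ 3 := pow_le_pow_left₀ (by norm_num) hR2 3
  have h1 := vcR hA hB hKA hKB hVC (δ := 1 / (32 * R ^ 3)) (by positivity) (by
    rw [div_le_div_iff₀ (by positivity) (by norm_num)]; linarith)
  refine h1.trans (mul_le_mul_of_nonneg_right ?_ (Nat.cast_nonneg _))
  have h2 : 11 * K / (1 / (32 * R ^ 3)) = 176 * (2 * K) * R ^ 3 := by field_simp; ring
  have h3 : 176 * (2 * K) * R ^ 3 ≤ R ^ 12 := by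
    have h4 : (2 : ℝ) ^ 8 ≤ R ^ 8 := pow_le_pow_left₀ (by norm_num) hR2 8
    calc 176 * (2 * K) * R ^ 3 ≤ R ^ 8 * R * R ^ 3 := by
          have : (176 : ℝ) ≤ R ^ 8 := by norm_num at h4; linarith
          gcongr
      _ = _ := by ring
  rw [h2]
  rcases Nat.eq_zero_or_pos d with h0 | hpos
  · subst h0
    rw [pow_zero, mul_one]
    calc K ≤ R ^ 1 := by linarith
      _ ≤ _ := pow_le_pow_right₀ (by linarith) hD
  · calc K * (176 * (2 * K) * R ^ 3) ^ d ≤ R ^ 1 * (R ^ 12) ^ d := by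
          gcongr
          linarith
      _ = R ^ (1 + 12 * d) := by rw [← pow_mul, ← pow_add]
      _ ≤ _ := pow_le_pow_right₀ (by linarith) (by omega)

end Pool.Agent.U546.PV
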