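import Pool.Agent.U546.PV.Eng
import Pool.Agent.TH458.VC.Haus

/-!
# Translates of small VC-dimension give many almost periods
-/

set_option autoImplicit false

namespace Pool.Agent.U546.PV

open Finset
open scoped Pointwise

variable {G : Type} [AddCommGroup G] [DecidableEq G]

/-- the translates `a + B` with `a ∈ A` shatter no set of more than `d` elements -/
def VCle (A B : Finset G) (d : ℕ) : Prop :=
  ∀ S : Finset G, (∀ T ⊆ S, ∃ a ∈ A, ∀ s ∈ S, (s ∈ T ↔ s - a ∈ B)) → S.card ≤ d

/-- the translate `a + B` inside the set `A + B` -/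
def tr (A B : Finset G) (a : G) : Finset {x // x ∈ A + B} := univ.filter fun x => x.1 - a ∈ B

theorem mem_tr (A B : Finset G) (a : G) (x : {x // x ∈ A + B}) : x ∈ tr A B a ↔ x.1 - a ∈ B := by
  unfold tr
  rw [mem_filter]
  simp

theorem card_sdiff_tr {A B : Finset G} {a c : G} (ha : a ∈ A) :
    (tr A B a \ tr A B c).card = dst B (a - c) := by
  unfold dst
  refine card_bij (fun x _ => x.1 - a) ?_ ?_ ?_
  · intro x hx
    rw [mem_sdiff, mem_tr, mem_tr] at hx
    rw [mem_filter]
    refine ⟨hx.1, ?_⟩
    have : x.1 - a + (a - c) = x.1 - c := by abel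
    rw [this]
    exact hx.2
  · intro x _ y _ h
    exact Subtype.ext (sub_left_injective h)
  · intro b hb
    rw [mem_filter] at hb
    refine ⟨⟨a + b, add_mem_add ha hb.1⟩, ?_, by simp⟩
    rw [mem_sdiff, mem_tr, mem_tr]
    refine ⟨by simpa using hb.1, ?_⟩
    have : a + b - c = b + (a - c) := by abel
    simp only [this]
    exact hb.2

theorem symmDiff_tr {A B : Finset G} {a c : G} (ha : a ∈ A) (hc : c ∈ A) :
    (symmDiff (tr A B a) (tr A B c)).card = 2 * dst B (a - c) := by
  have h1 := card_sdiff_tr (B := B) (a := a) (c := c) ha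
  have h2 := card_sdiff_tr (B := B) (a := c) (c := a) hc
  rw [← dst_neg, neg_sub] at h2
  have h3 : (symmDiff (tr A B a) (tr A B c)).card =
      (tr A B a \ tr A B c).card + (tr A B c \ tr A B a).card := by
    rw [symmDiff_def, sup_eq_union, card_union_of_disjoint]
    exact disjoint_sdiff_sdiff
  omega

/-- **Many almost periods** -/
theorem vcP {A B : Finset G} (hA : A.Nonempty) (hB : B.Nonempty) {d : ℕ} (hVC : VCle A B d)
    {K : ℝ} (hKB : ((A + B).card : ℝ) ≤ K * B.card) {τ : ℝ} (hτ : 0 < τ) (hτ2 : τ ≤ 1 / 2) :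
    (A.card : ℝ) ≤ (11 * K / τ) ^ d * (PG B τ).card := by
  classical
  have hBc : (0 : ℝ) < B.card := by exact_mod_cast hB.card_pos
  have hBn : (B.card : ℝ) ≤ (A + B).card := by exact_mod_cast card_le_card_add_left hA
  have hK1 : 1 ≤ K := by
    by_contra hcon
    push Not at hcon
    nlinarith
  obtain ⟨r, hr⟩ : ∃ r : ℕ, r = ⌈2 * τ * B.card⌉₊ := ⟨_, rfl⟩
  have hr1 : 2 * τ * B.card ≤ r := by rw [hr]; exact Nat.le_ceil _
  have hr0 : 0 < r := by rw [hr]; exact Nat.ceil_pos.2 (by positivity)
  have hr0' : (0 : ℝ) < r := by exact_mod_cast hr0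
  have hrN : r ≤ (A + B).card := by
    rw [hr]
    apply Nat.ceil_le.2
    nlinarith
  have hrN' : (r : ℝ) ≤ (A + B).card := by exact_mod_cast hrN
  let P : Finset G → Prop := fun F => ∀ f ∈ F, ∀ g ∈ F, f ≠ g →
    r ≤ (symmDiff (tr A B f) (tr A B g)).card
  obtain ⟨F, hF, hmax⟩ := Finset.exists_max_image (A.powerset.filter P) Finset.card
    ⟨∅, by simp [P]⟩
  rw [mem_filter, mem_powerset] at hF
  obtain ⟨hFA, hFP⟩ := hF
  have hcov : ∀ u ∈ A, ∃ f ∈ F, (symmDiff (tr A B u) (tr A B f)).card < r := by
    intro u hu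
    by_cases huF : u ∈ F
    · refine ⟨u, huF, ?_⟩
      rw [symmDiff_self]
      simpa using hr0
    · by_contra hcon
      push Not at hcon
      have hins : insert u F ∈ A.powerset.filter P := by
        rw [mem_filter, mem_powerset]
        refine ⟨insert_subset hu hFA, ?_⟩
        intro f hf g hg hfg
        rw [mem_insert] at hf hg
        rcases hf with rfl | hf <;> rcases hg with rfl | hg
        · exact absurd rfl hfg
        · exact hcon g hg
        · rw [symmDiff_comm]
          exact hcon f hf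
        · exact hFP f hf g hg hfg
      have := hmax _ hins
      rw [card_insert_of_notMem huF] at this
      omega
  have hinj : Set.InjOn (tr A B) (F : Set G) := by
    intro f hf g hg hfg
    by_contra hne
    have := hFP f hf g hg hne
    rw [hfg, symmDiff_self] at this
    simp at this
    omega
  have hFc : (F.card : ℝ) ≤ (22 * (A + B).card / r) ^ d := by
    have h1 := Pool.Agent.TH458.VC.haus {x // x ∈ A + B} (F.image (tr A B)) r hr0 (by
      intro X hX Y hY hXY
      obtain ⟨f, hf, rfl⟩ := mem_image.1 hX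
      obtain ⟨g, hg, rfl⟩ := mem_image.1 hY
      exact hFP f hf g hg fun h => hXY (by rw [h])) (by simpa using hrN)
    rw [card_image_of_injOn hinj, Fintype.card_coe] at h1
    refine h1.trans ?_
    apply pow_le_pow_right₀
    · rw [le_div_iff₀ hr0']
      linarith
    · unfold Finset.vcDim
      apply Finset.sup_le
      intro s hs
      rw [mem_shatterer] at hs
      have h3 := hVC (s.map (Function.Embedding.subtype (· ∈ A + B))) (by
        intro T hT
        have h4 : (s.filter (fun x : {x // x ∈ A + B} => x.1 ∈ T)) ⊆ s := filter_subset _ _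
        obtain ⟨u, hu, hsu⟩ := hs h4
        rw [mem_image] at hu
        obtain ⟨f, hf, rfl⟩ := hu
        refine ⟨f, hFA hf, ?_⟩
        intro x hx
        rw [mem_map] at hx
        obtain ⟨y, hy, rfl⟩ := hx
        have h5 : y ∈ s ∩ tr A B f ↔ y ∈ s.filter (fun x : {x // x ∈ A + B} => x.1 ∈ T) := by
          rw [hsu]
        rw [mem_inter, mem_filter, mem_tr] at h5
        simp only [hy, true_and] at h5
        exact h5.symm)
      rwa [card_map] at h3
  have hsub : A ⊆ F.biUnion fun f => (PG B τ).image fun t => t + f := by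
    intro u hu
    obtain ⟨f, hf, hfu⟩ := hcov u hu
    rw [mem_biUnion]
    refine ⟨f, hf, ?_⟩
    rw [mem_image]
    refine ⟨u - f, ?_, by abel⟩
    rw [mem_PG hB (by linarith)]
    rw [symmDiff_tr hu (hFA hf), hr, Nat.lt_ceil] at hfu
    push_cast at hfu
    linarith
  have h2 : A.card ≤ F.card * (PG B τ).card := by
    have h3 := (card_le_card hsub).trans card_biUnion_le
    refine h3.trans ?_
    calc ∑ f ∈ F, ((PG B τ).image fun t => t + f).card ≤ ∑ _f ∈ F, (PG B τ).card :=
          sum_le_sum fun _ _ => card_image_le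
      _ = F.card * (PG B τ).card := by rw [sum_const, smul_eq_mul]
  have h3 : (A.card : ℝ) ≤ F.card * (PG B τ).card := by exact_mod_cast h2
  refine h3.trans (mul_le_mul_of_nonneg_right (hFc.trans ?_) (Nat.cast_nonneg _))
  apply pow_le_pow_left₀ (by positivity)
  rw [div_le_div_iff₀ hr0' hτ]
  have h4 : 22 * ((A + B).card : ℝ) * τ ≤ 22 * (K * B.card) * τ := by gcongr
  have h5 : 11 * K * (2 * τ * B.card) ≤ 11 * K * r := by gcongr
  nlinarith

end Pool.Agent.U546.PV
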